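import Pool.Agent.Lib.MP_ae5b4e_an_SD.MainAe

/-! THEOREM B', all boxes at once, module All1: the weight `om y = 1 / (1 + y ^ 2)` and the total
weighted energy of the places `0, 1, ..., J - 1`. The weighted integrals are over the whole of
`Ereg`, no boxes are used. -/

open Complex Set Filter PorTR MeasureTheory Topology
open scoped ENNReal
open MP_ae5b4e_LD (area int_strip int_exp)

namespace MP_ae5b4e_SD

/-- the weight -/
noncomputable def om (y : ℝ) : ℝ := 1 / (1 + y ^ 2)

theorem om_pos (y : ℝ) : 0 < om y := by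
  unfold om
  positivity

private theorem om_atan (t : ℝ) : om t ≤ 3 * (Real.arctan (t + 1) - Real.arctan t) := by
  obtain ⟨c, hc, hc'⟩ := exists_hasDerivAt_eq_slope Real.arctan (fun x => 1 / (1 + x ^ 2))
    (lt_add_one t) Real.continuous_arctan.continuousOn
    (fun x _ => Real.hasDerivAt_arctan x)
  have h1 : Real.arctan (t + 1) - Real.arctan t = 1 / (1 + c ^ 2) := by
    rw [hc']
    ring
  rw [h1]
  unfold om
  obtain ⟨h2, h3⟩ := hc
  rw [← mul_div_assoc, mul_one, div_le_div_iff₀ (by positivity) (by positivity)]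
  nlinarith [sq_nonneg (c - t), sq_nonneg (2 * t - 1), sq_nonneg (t + (c - t)), sq_nonneg t,
    sq_nonneg (t - 1), sq_nonneg (2 * t - (c - t))]

theorem om_sum (y : ℝ) (J : ℕ) : ∑ j ∈ Finset.range J, om (y - j) ≤ 10 := by
  have h1 : ∀ j ∈ Finset.range J, om (y - j) ≤
      3 * Real.arctan (y + 1 - (j : ℝ)) - 3 * Real.arctan (y + 1 - ((j + 1 : ℕ) : ℝ)) := by
    intro j _
    refine (om_atan _).trans (le_of_eq ?_)
    have e1 : y - (j : ℝ) + 1 = y + 1 - j := by ring
    have e2 : y - (j : ℝ) = y + 1 - ((j + 1 : ℕ) : ℝ) := by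
      push_cast
      ring
    rw [e1]
    conv_lhs => rw [e2]
    ring
  refine (Finset.sum_le_sum h1).trans ?_
  rw [Finset.sum_range_sub' (fun j : ℕ => 3 * Real.arctan (y + 1 - (j : ℝ)))]
  have h2 : Real.arctan (y + 1 - ((0 : ℕ) : ℝ)) < Real.pi / 2 := Real.arctan_lt_pi_div_two _
  have h3 : -(Real.pi / 2) < Real.arctan (y + 1 - (J : ℝ)) := Real.neg_pi_div_two_lt_arctan _
  have h4 : Real.pi ≤ 4 := Real.pi_le_four
  have h5 : Real.pi < 3.15 := Real.pi_lt_d2
  norm_num at h5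
  show 3 * Real.arctan (y + 1 - ((0 : ℕ) : ℝ)) - 3 * Real.arctan (y + 1 - (J : ℝ)) ≤ 10
  generalize Real.arctan (y + 1 - ((0 : ℕ) : ℝ)) = A at *
  generalize Real.arctan (y + 1 - (J : ℝ)) = B at *
  nlinarith

/-- weighted, cut-off energy density -/
noncomputable def enW (q : ℂ → ℂ) (u : ℂ) (R x : ℝ) (P : ℂ) (t : ℝ) : ℝ≥0∞ :=
  ENNReal.ofReal (om (P.re - x)) * enR q u R x P t

private theorem all_sum {α ι : Type*} [MeasurableSpace α] (μ : Measure α) (s : Finset ι)
    (f : ι → α → ℝ≥0∞) : ∑ j ∈ s, ∫⁻ a, f j a ∂μ ≤ ∫⁻ a, ∑ j ∈ s, f j a ∂μ := by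
  classical
  induction s using Finset.induction_on with
  | empty => simp
  | insert j s hj ih =>
    rw [Finset.sum_insert hj]
    have h1 : ∀ a, ∑ i ∈ insert j s, f i a = f j a + ∑ i ∈ s, f i a := fun a =>
      Finset.sum_insert hj
    simp only [h1]
    exact (add_le_add_right ih _).trans (le_lintegral_add _ _)

private theorem all_meas (s t : ℝ) (C5 : ℝ) :
    MeasurableSet {z : ℂ | s ≤ z.re ∧ z.re ≤ t ∧ z.im < C5} := by
  have e : {z : ℂ | s ≤ z.re ∧ z.re ≤ t ∧ z.im < C5} =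
      {z : ℂ | s ≤ z.re} ∩ ({z : ℂ | z.re ≤ t} ∩ {z : ℂ | z.im < C5}) := rfl
  rw [e]
  refine MeasurableSet.inter ?_ (MeasurableSet.inter ?_ ?_)
  · exact (isClosed_le continuous_const Complex.continuous_re).measurableSet
  · exact (isClosed_le Complex.continuous_re continuous_const).measurableSet
  · exact (isOpen_lt Complex.continuous_im continuous_const).measurableSet

/-- area estimate at a fixed time, all places -/
theorem tube_fixedW {W : Set (ℂ → ℂ)} {C d0 Ce kap : ℝ} (F : Fam W C d0 Ce kap) {u : ℂ}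
    (hu : u.re = 1)
    (hbd : DeepBd W C d0) {q : ℂ → ℂ} (hq : q ∈ W) {R t : ℝ} (J : ℕ)
    (hJR : (J : ℝ) ≤ R) (ht : 0 < t) :
    ∑ j ∈ Finset.range J, ∫⁻ P in Ereg q u d0 kap,
        ENNReal.ofReal (om (P.re - j)) *
        (ENNReal.ofReal (4 * ‖q (tr q u P t)‖ * ‖dtr q u P t‖ ^ 2) *
          {z : ℂ | |z.re - (j : ℝ)| ≤ R}.indicator 1 (tr q u P t))
      ≤ ENNReal.ofReal (240 * R * Real.sqrt (C * kap) * Real.exp (-t)) := by
  have hC := F.C_pos
  have hd := F.d0_pos
  have hk := F.kap_pos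
  have hR : 0 ≤ R := le_trans (by positivity) hJR
  obtain ⟨a, ha⟩ : ∃ a, a = kap * Real.exp (-2 * t) := ⟨_, rfl⟩
  have ha0 : 0 < a := by
    rw [ha]
    positivity
  obtain ⟨S, hS⟩ : ∃ S : Set ℂ, S = {z : ℂ | -R ≤ z.re ∧ z.re ≤ 2 * R ∧ z.im < -d0} :=
    ⟨_, rfl⟩
  obtain ⟨G, hG⟩ : ∃ G : ℂ → ℝ≥0∞, G = S.indicator
    (fun z => ENNReal.ofReal (4 * min (C / z.im ^ 2) a)) := ⟨_, rfl⟩
  have hSm : MeasurableSet S := by
    rw [hS]
    exact all_meas (-R) (2 * R) (-d0)
  have hEm : MeasurableSet (Ereg q u d0 kap) := ereg_meas F hu hq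
  have hinj : InjOn (fun P => tr q u P t) (Ereg q u d0 kap) := tr_inj F hu hq ht.le
  have hcont : ContinuousOn (fun P => tr q u P t) (Ereg q u d0 kap) := by
    have h1 : ContinuousOn (fun P : ℂ => ((P, t) : ℂ × ℝ)) (Ereg q u d0 kap) := by fun_prop
    exact (tr_cont F hu hbd hq).comp h1 fun P hP => ⟨hP, ht.le⟩
  have hIm : MeasurableSet ((fun P => tr q u P t) '' Ereg q u d0 kap) :=
    hEm.image_of_continuousOn_injOn hcont hinj
  -- pointwise bound of the sum
  have hpt : ∀ P ∈ Ereg q u d0 kap, ∑ j ∈ Finset.range J, ENNReal.ofReal (om (P.re - j)) *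
        (ENNReal.ofReal (4 * ‖q (tr q u P t)‖ * ‖dtr q u P t‖ ^ 2) *
          {z : ℂ | |z.re - (j : ℝ)| ≤ R}.indicator 1 (tr q u P t)) ≤
      10 * (ENNReal.ofReal (‖dtr q u P t‖ ^ 2) *
        (ENNReal.ofReal (4 * ‖q (tr q u P t)‖) * S.indicator 1 (tr q u P t))) := by
    intro P hP
    have h1 : ∀ j ∈ Finset.range J, ENNReal.ofReal (om (P.re - j)) *
        (ENNReal.ofReal (4 * ‖q (tr q u P t)‖ * ‖dtr q u P t‖ ^ 2) *
          {z : ℂ | |z.re - (j : ℝ)| ≤ R}.indicator 1 (tr q u P t)) ≤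
        ENNReal.ofReal (om (P.re - j)) *
        (ENNReal.ofReal (‖dtr q u P t‖ ^ 2) *
        (ENNReal.ofReal (4 * ‖q (tr q u P t)‖) * S.indicator 1 (tr q u P t))) := by
      intro j hj
      refine mul_le_mul_right ?_ _
      have h2 : ENNReal.ofReal (4 * ‖q (tr q u P t)‖ * ‖dtr q u P t‖ ^ 2) =
          ENNReal.ofReal (‖dtr q u P t‖ ^ 2) * ENNReal.ofReal (4 * ‖q (tr q u P t)‖) := by
        rw [← ENNReal.ofReal_mul (by positivity)]
        congr 1
        ring
      rw [h2, mul_assoc]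
      refine mul_le_mul_right (mul_le_mul_right ?_ _) _
      by_cases hz : |(tr q u P t).re - (j : ℝ)| ≤ R
      · have hzS : tr q u P t ∈ S := by
          rw [hS]
          have h4 := abs_le.1 hz
          have h5 : (j : ℝ) ≤ R := by
            refine le_trans ?_ hJR
            exact_mod_cast (Finset.mem_range.1 hj).le
          have h6 : (0 : ℝ) ≤ j := by positivity
          exact ⟨by linarith, by linarith, (tr_facts F hu hq hP ht.le).1⟩
        rw [indicator_of_mem hzS, indicator_of_mem (by exact hz)]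
      · rw [indicator_of_notMem (by exact hz)]
        exact zero_le
    refine (Finset.sum_le_sum h1).trans ?_
    rw [← Finset.sum_mul]
    refine mul_le_mul_left ?_ _
    rw [← ENNReal.ofReal_sum_of_nonneg fun j _ => (om_pos _).le]
    have e10 : (10 : ℝ≥0∞) = ENNReal.ofReal 10 := by simp
    rw [e10]
    exact ENNReal.ofReal_le_ofReal (om_sum _ _)
  refine (all_sum _ _ _).trans ?_
  refine (setLIntegral_mono' hEm hpt).trans ?_
  rw [lintegral_const_mul' _ _ ENNReal.ofNat_ne_top]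
  rw [← area hEm (f' := fun P => dtr q u P t) (fun P hP => tr_deriv F hu hbd hq hP ht.le) hinj
    (fun z => ENNReal.ofReal (4 * ‖q z‖) * S.indicator 1 z)]
  have hpt2 : ∀ z ∈ (fun P => tr q u P t) '' Ereg q u d0 kap,
      ENNReal.ofReal (4 * ‖q z‖) * S.indicator 1 z ≤ G z := by
    rintro _ ⟨P, hP, rfl⟩
    obtain ⟨h1, -, h3, -⟩ := tr_facts F hu hq hP ht.le
    by_cases hz : tr q u P t ∈ S
    · show ENNReal.ofReal (4 * ‖q (tr q u P t)‖) * S.indicator 1 (tr q u P t) ≤
        G (tr q u P t)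
      rw [hG, indicator_of_mem hz, indicator_of_mem hz, Pi.one_apply, mul_one]
      refine ENNReal.ofReal_le_ofReal (mul_le_mul_of_nonneg_left (le_min ?_ ?_) (by norm_num))
      · exact hbd q hq _ h1.le
      · rw [ha]
        exact h3.le
    · show ENNReal.ofReal (4 * ‖q (tr q u P t)‖) * S.indicator 1 (tr q u P t) ≤
        G (tr q u P t)
      rw [indicator_of_notMem hz, mul_zero]
      exact zero_le
  have hmain : ∫⁻ z in (fun P => tr q u P t) '' Ereg q u d0 kap,
      ENNReal.ofReal (4 * ‖q z‖) * S.indicator 1 z ≤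
      ENNReal.ofReal (24 * R * Real.sqrt (C * kap) * Real.exp (-t)) := by
    calc ∫⁻ z in (fun P => tr q u P t) '' Ereg q u d0 kap,
        ENNReal.ofReal (4 * ‖q z‖) * S.indicator 1 z
        ≤ ∫⁻ z in (fun P => tr q u P t) '' Ereg q u d0 kap, G z :=
          setLIntegral_mono' hIm hpt2
      _ ≤ ∫⁻ z, G z := setLIntegral_le_lintegral _ _
      _ = ∫⁻ z in S, ENNReal.ofReal (4 * min (C / z.im ^ 2) a) := by
          rw [hG, lintegral_indicator hSm]
      _ = ∫⁻ z in S, 4 * ENNReal.ofReal (min (C / z.im ^ 2) a) := by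
          refine lintegral_congr fun z => ?_
          rw [ENNReal.ofReal_mul (by norm_num), ENNReal.ofReal_ofNat]
      _ = 4 * ∫⁻ z in S, ENNReal.ofReal (min (C / z.im ^ 2) a) := by
          rw [lintegral_const_mul']
          exact ENNReal.ofNat_ne_top
      _ ≤ 4 * ENNReal.ofReal ((2 * R - -R) * (2 * Real.sqrt (C * a))) := by
          rw [hS]
          exact mul_le_mul_right (int_strip hC ha0 hd (by linarith)) 4
      _ = ENNReal.ofReal (24 * R * Real.sqrt (C * kap) * Real.exp (-t)) := by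
          have h1 : Real.sqrt (C * a) = Real.sqrt (C * kap) * Real.exp (-t) := by
            have h2 : C * a = C * kap * Real.exp (-t) ^ 2 := by
              rw [ha, ← Real.exp_nat_mul]
              have h3 : -2 * t = ((2 : ℕ) : ℝ) * -t := by
                push_cast
                ring
              rw [h3]
              ring
            rw [h2, Real.sqrt_mul (by positivity), Real.sqrt_sq (Real.exp_pos _).le]
          rw [h1, ← ENNReal.ofReal_ofNat (n := 4), ← ENNReal.ofReal_mul (by norm_num)]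
          congr 1
          norm_num
          ring
  refine (mul_le_mul_right hmain 10).trans (le_of_eq ?_)
  rw [← ENNReal.ofReal_ofNat (n := 10), ← ENNReal.ofReal_mul (by norm_num)]
  congr 1
  norm_num
  ring

/-- the total weighted energy of the places `0, ..., J - 1` -/
theorem tube_sumW {W : Set (ℂ → ℂ)} {C d0 Ce kap : ℝ} (F : Fam W C d0 Ce kap) {u : ℂ}
    (hu : u.re = 1)
    (hbd : DeepBd W C d0) {q : ℂ → ℂ} (hq : q ∈ W) {R : ℝ} (J : ℕ) (hJR : (J : ℝ) ≤ R) :
    ∑ j ∈ Finset.range J, ∫⁻ P in Ereg q u d0 kap,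
        ∫⁻ t in Ioi (0 : ℝ), enW q u R (j : ℝ) P t
      ≤ ENNReal.ofReal (15600 * ‖u‖ ^ 2 * R * Real.sqrt (C * kap)) := by
  have hR : 0 ≤ R := le_trans (by positivity) hJR
  have hE : MeasurableSet (Ereg q u d0 kap) := ereg_meas F hu hq
  have h1 : ∀ j ∈ Finset.range J,
      ∫⁻ P in Ereg q u d0 kap, ∫⁻ t in Ioi (0 : ℝ), enW q u R (j : ℝ) P t =
      ∫⁻ t in Ioi (0 : ℝ), ∫⁻ P in Ereg q u d0 kap, enW q u R (j : ℝ) P t := by
    intro j _
    refine lintegral_lintegral_swap ?_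
    have hw : Measurable fun p : ℂ × ℝ => ENNReal.ofReal (om (p.1.re - j)) := by
      unfold om
      fun_prop
    refine ⟨_, hw.mul (enR_meas F hu hbd hq R (j : ℝ)), ?_⟩
    rw [Measure.prod_restrict]
    refine (ae_restrict_iff' (hE.prod measurableSet_Ioi)).2 (Eventually.of_forall ?_)
    rintro ⟨P, t⟩ hPt
    show enW q u R (j : ℝ) P t = _ * _
    rw [indicator_of_mem hPt]
    rfl
  rw [Finset.sum_congr rfl h1]
  refine (all_sum _ _ _).trans ?_
  have h2 : ∀ t ∈ Ioi (0 : ℝ), ∑ j ∈ Finset.range J,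
      ∫⁻ P in Ereg q u d0 kap, enW q u R (j : ℝ) P t ≤
      ENNReal.ofReal (240 * ‖u‖ ^ 2 * R * Real.sqrt (C * kap)) *
        ENNReal.ofReal ((1 + t) ^ 4 * Real.exp (-t)) := by
    intro t ht
    have ht0 : 0 < t := ht
    have h3 : ∀ j ∈ Finset.range J,
        ∫⁻ P in Ereg q u d0 kap, enW q u R (j : ℝ) P t =
        ENNReal.ofReal ((1 + t) ^ 4 * ‖u‖ ^ 2) *
          ∫⁻ P in Ereg q u d0 kap, ENNReal.ofReal (om (P.re - j)) *
            (ENNReal.ofReal (4 * ‖q (tr q u P t)‖ * ‖dtr q u P t‖ ^ 2) *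
            {z : ℂ | |z.re - (j : ℝ)| ≤ R}.indicator 1 (tr q u P t)) := by
      intro j _
      rw [← lintegral_const_mul' _ _ ENNReal.ofReal_ne_top]
      refine setLIntegral_congr_fun hE ?_
      intro P hP
      dsimp only
      unfold enW
      by_cases hc : |(tr q u P t).re - (j : ℝ)| ≤ R
      · have e1 : enR q u R (j : ℝ) P t = en q u P t := by
          rw [enR, indicator_of_mem (show t ∈ {t | |(tr q u P t).re - (j : ℝ)| ≤ R} from hc)]
        have e2 : {z : ℂ | |z.re - (j : ℝ)| ≤ R}.indicator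
            (1 : ℂ → ℝ≥0∞) (tr q u P t) = 1 := by
          rw [indicator_of_mem (show tr q u P t ∈ {z : ℂ | |z.re - (j : ℝ)| ≤ R} from hc)]
          rfl
        rw [e1, e2, mul_one, en_eq F hu hq hP ht0.le]
        ring
      · have e1 : enR q u R (j : ℝ) P t = 0 := by
          rw [enR, indicator_of_notMem (show t ∉ {t | |(tr q u P t).re - (j : ℝ)| ≤ R} from hc)]
        have e2 : {z : ℂ | |z.re - (j : ℝ)| ≤ R}.indicator
            (1 : ℂ → ℝ≥0∞) (tr q u P t) = 0 := by
          rw [indicator_of_notMem (show tr q u P t ∉ {z : ℂ | |z.re - (j : ℝ)| ≤ R} from hc)]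
        rw [e1, e2, mul_zero, mul_zero, mul_zero, mul_zero]
    rw [Finset.sum_congr rfl h3, ← Finset.mul_sum]
    refine (mul_le_mul_right (tube_fixedW F hu hbd hq J hJR ht0) _).trans ?_
    rw [← ENNReal.ofReal_mul (by positivity), ← ENNReal.ofReal_mul (by positivity)]
    refine ENNReal.ofReal_le_ofReal (le_of_eq ?_)
    ring
  refine (setLIntegral_mono' measurableSet_Ioi h2).trans ?_
  rw [lintegral_const_mul' _ _ ENNReal.ofReal_ne_top]
  refine (mul_le_mul_right int_exp _).trans ?_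
  have e65 : (65 : ℝ≥0∞) = ENNReal.ofReal 65 := by simp
  rw [e65, ← ENNReal.ofReal_mul (by positivity)]
  refine ENNReal.ofReal_le_ofReal (le_of_eq ?_)
  ring

end MP_ae5b4e_SD
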