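import Pool.Agent.Lib.MP_ae5b4e_an_SD.All1

/-! THEOREM B', all boxes at once, module All2: translation of the place, choice of a place with
small weighted energy, and Fatou: a window limit with finite weighted energy. -/

open Complex Set Filter PorTR MeasureTheory Topology
open scoped ENNReal

namespace MP_ae5b4e_SD

private theorem all2_deriv (q : ℂ → ℂ) (x z : ℂ) :
    deriv (fun z => q (z + x)) z = deriv q (z + x) := deriv_comp_add_const q x z

theorem int_transW {W : Set (ℂ → ℂ)} {C d0 Ce kap : ℝ} (F : Fam W C d0 Ce kap) {u : ℂ}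
    (hu : u.re = 1)
    {q : ℂ → ℂ} (hq : q ∈ W) (R x : ℝ) :
    ∫⁻ P in Ereg (fun z => q (z + (x : ℂ))) u d0 kap,
        ∫⁻ t in Ioi (0 : ℝ), enW (fun z => q (z + (x : ℂ))) u R 0 P t
      = ∫⁻ P in Ereg q u d0 kap, ∫⁻ t in Ioi (0 : ℝ), enW q u R x P t := by
  have hq' := F.trans q hq x
  have hset : Ereg (fun z => q (z + (x : ℂ))) u d0 kap =
      (fun P : ℂ => P + (x : ℂ)) ⁻¹' (Ereg q u d0 kap) := by
    ext P
    exact ereg_trans q u d0 kap x P
  have hmeas : MeasurableSet (Ereg (fun z => q (z + (x : ℂ))) u d0 kap) := ereg_meas F hu hq'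
  have hcongr : ∀ P ∈ Ereg (fun z => q (z + (x : ℂ))) u d0 kap,
      ∫⁻ t in Ioi (0 : ℝ), enW (fun z => q (z + (x : ℂ))) u R 0 P t =
        ∫⁻ t in Ioi (0 : ℝ), enW q u R x (P + (x : ℂ)) t := by
    intro P hP
    have hP' := (ereg_trans q u d0 kap x P).1 hP
    refine setLIntegral_congr_fun measurableSet_Ioi fun t ht => ?_
    have h1 := tr_trans F hu hq x hP' (le_of_lt ht)
    have h2 : (tr (fun z => q (z + (x : ℂ))) u P t).re - 0 = (tr q u (P + (x : ℂ)) t).re - x := by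
      rw [h1, sub_re, ofReal_re, sub_zero]
    have h3 : en (fun z => q (z + (x : ℂ))) u P t = en q u (P + (x : ℂ)) t := by
      unfold en vel wt
      rw [h1, all2_deriv, all2_deriv]
      beta_reduce
      rw [sub_add_cancel]
    change enW (fun z => q (z + (x : ℂ))) u R 0 P t = enW q u R x (P + (x : ℂ)) t
    unfold enW
    have h6 : (P + (x : ℂ)).re - x = P.re - 0 := by
      rw [add_re, ofReal_re, add_sub_cancel_right, sub_zero]
    rw [h6]
    congr 1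
    unfold enR
    rw [Set.indicator_apply, Set.indicator_apply]
    have h4 : (t ∈ {t | |(tr (fun z => q (z + (x : ℂ))) u P t).re - 0| ≤ R}) ↔
        t ∈ {t | |(tr q u (P + (x : ℂ)) t).re - x| ≤ R} := by
      change |(tr (fun z => q (z + (x : ℂ))) u P t).re - 0| ≤ R ↔
        |(tr q u (P + (x : ℂ)) t).re - x| ≤ R
      rw [h2]
    by_cases h5 : t ∈ {t | |(tr q u (P + (x : ℂ)) t).re - x| ≤ R}
    · rw [if_pos h5, if_pos (h4.2 h5), h3]
    · rw [if_neg h5, if_neg fun h => h5 (h4.1 h)]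
  rw [setLIntegral_congr_fun hmeas hcongr, hset]
  exact (measurePreserving_add_right volume (x : ℂ)).setLIntegral_comp_preimage_emb
    (MeasurableEquiv.addRight (x : ℂ)).measurableEmbedding
    (fun P => ∫⁻ t in Ioi (0 : ℝ), enW q u R x P t) (Ereg q u d0 kap)

theorem pickW {W : Set (ℂ → ℂ)} {C d0 Ce kap : ℝ} (F : Fam W C d0 Ce kap) {u : ℂ}
    (hu : u.re = 1)
    (hbd : DeepBd W C d0) (hne : W.Nonempty) (J : ℕ) (hJ : 1 ≤ J) :
    ∃ q ∈ W, ∫⁻ P in Ereg q u d0 kap,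
        ∫⁻ t in Ioi (0 : ℝ), enW q u (J : ℝ) 0 P t
      ≤ ENNReal.ofReal (15600 * ‖u‖ ^ 2 * Real.sqrt (C * kap)) := by
  obtain ⟨q0, hq0⟩ := hne
  have hs := tube_sumW F hu hbd hq0 J (le_refl (J : ℝ))
  have hJ0 : (Finset.range J).Nonempty := Finset.nonempty_range_iff.mpr (by omega)
  have hc : ENNReal.ofReal (15600 * ‖u‖ ^ 2 * (J : ℝ) * Real.sqrt (C * kap)) =
      ∑ _j ∈ Finset.range J,
        ENNReal.ofReal (15600 * ‖u‖ ^ 2 * Real.sqrt (C * kap)) := by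
    rw [Finset.sum_const, Finset.card_range, nsmul_eq_mul, ← ENNReal.ofReal_natCast,
      ← ENNReal.ofReal_mul (by positivity)]
    congr 1
    ring
  rw [hc] at hs
  obtain ⟨j, _, hj⟩ := ENNReal.exists_le_of_sum_le hJ0 hs
  refine ⟨fun z => q0 (z + (((j : ℝ) : ℝ) : ℂ)), F.trans q0 hq0 _, ?_⟩
  rw [int_transW F hu hq0 (J : ℝ) (j : ℝ)]
  exact hj

/-- a window limit with finite weighted energy over all regular starting points -/
theorem finite_all {W : Set (ℂ → ℂ)} {C d0 Ce kap : ℝ} (F : Fam W C d0 Ce kap) {u : ℂ}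
    (hu : u.re = 1)
    (hbd : DeepBd W C d0) (hne : W.Nonempty) (hcpt : Cpt W) :
    ∃ q ∈ W, ∫⁻ P in Ereg q u d0 kap, ∫⁻ t in Ioi (0 : ℝ),
        ENNReal.ofReal (om (P.re - 0)) * en q u P t
      ≤ ENNReal.ofReal (15600 * ‖u‖ ^ 2 * Real.sqrt (C * kap)) := by
  have hpk := fun n : ℕ => pickW F hu hbd hne (n + 1) (Nat.le_add_left 1 n)
  choose f hfW hfb using hpk
  obtain ⟨q, hq, φ, hφ, hlim⟩ := hcpt f hfW
  refine ⟨q, hq, ?_⟩
  set B := ENNReal.ofReal (15600 * ‖u‖ ^ 2 * Real.sqrt (C * kap)) with hB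
  let g : ℕ → ℂ → ℂ := fun n => f (φ n)
  let R : ℕ → ℝ := fun n => ((φ n + 1 : ℕ) : ℝ)
  have hg : ∀ n, g n ∈ W := fun n => hfW _
  have hgb : ∀ n, ∫⁻ P in Ereg (g n) u d0 kap,
      ∫⁻ t in Ioi (0 : ℝ), enW (g n) u (R n) 0 P t ≤ B := fun n => hfb (φ n)
  have hR : Tendsto R atTop atTop :=
    tendsto_natCast_atTop_atTop.comp ((tendsto_add_atTop_nat 1).comp hφ.tendsto_atTop)
  have hw : Measurable fun p : ℂ × ℝ => ENNReal.ofReal (om (p.1.re - 0)) := by
    unfold om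
    fun_prop
  let G : ℕ → ℂ × ℝ → ℝ≥0∞ := fun n p => ENNReal.ofReal (om (p.1.re - 0)) *
    (Ereg (g n) u d0 kap ×ˢ Ioi (0 : ℝ)).indicator
    (fun p : ℂ × ℝ => enR (g n) u (R n) 0 p.1 p.2) p
  have hGm : ∀ n, Measurable (G n) := fun n => hw.mul (enR_meas F hu hbd (hg n) (R n) 0)
  -- generic points
  have hgen : ∀ᵐ P : ℂ, ∀ n, ¬ (P ∈ Hm ∧ ∃ z ∈ Hm, deriv (g n) z = 0 ∧
      ∃ r : ℝ, g n z = g n P * cexp (u * r)) := by
    rw [ae_all_iff]
    intro n
    rw [ae_iff]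
    simp only [not_not]
    exact nongeneric_null F hu (hg n)
  have hev : ∀ P ∈ Ereg q u d0 kap, (∀ n, ¬ (P ∈ Hm ∧ ∃ z ∈ Hm, deriv (g n) z = 0 ∧
      ∃ r : ℝ, g n z = g n P * cexp (u * r))) → ∀ᶠ n in atTop, P ∈ Ereg (g n) u d0 kap := by
    intro P hP hgP
    have hPH : P ∈ Hm := ereg_low F.d0_pos hP
    have h1 : Tendsto (fun n => g n P) atTop (𝓝 (q P)) := hlim.tendsto_at hPH
    filter_upwards [h1.eventually (isOpen_ne.mem_nhds hP.2.1),
      h1.norm.eventually (gt_mem_nhds hP.2.2.1)] with n hn hn'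
    refine ⟨hP.1, hn, hn', fun z hz hz0 r he => hgP n ⟨hPH, z, hz, hz0, r, he⟩⟩
  have hSm : MeasurableSet (Ereg q u d0 kap) := ereg_meas F hu hq
  have s1 : ∫⁻ P in Ereg q u d0 kap, ∫⁻ t in Ioi (0 : ℝ),
        ENNReal.ofReal (om (P.re - 0)) * en q u P t ≤
      ∫⁻ P in Ereg q u d0 kap, ∫⁻ t in Ioi (0 : ℝ),
        liminf (fun n => G n (P, t)) atTop := by
    refine setLIntegral_mono_ae' hSm ?_
    filter_upwards [hgen] with P hgP hP
    refine setLIntegral_mono' measurableSet_Ioi fun t ht => ?_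
    have h1 := en_tendsto F hu hbd hg hq hlim hR hP (hev P hP hgP) (le_of_lt ht)
    have h2 : Tendsto (fun n => G n (P, t)) atTop
        (𝓝 (ENNReal.ofReal (om (P.re - 0)) * en q u P t)) := by
      refine (ENNReal.Tendsto.const_mul h1 (Or.inr ENNReal.ofReal_ne_top)).congr' ?_
      filter_upwards [hev P hP hgP] with n hn
      show ENNReal.ofReal (om (P.re - 0)) * enR (g n) u (R n) 0 P t = _ * _
      congr 1
      exact (indicator_of_mem (show (P, t) ∈ Ereg (g n) u d0 kap ×ˢ Ioi (0 : ℝ) from ⟨hn, ht⟩)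
        (fun p : ℂ × ℝ => enR (g n) u (R n) 0 p.1 p.2)).symm
    rw [h2.liminf_eq]
  have s2 : ∫⁻ P in Ereg q u d0 kap, ∫⁻ t in Ioi (0 : ℝ),
      liminf (fun n => G n (P, t)) atTop ≤
      ∫⁻ P, ∫⁻ t in Ioi (0 : ℝ), liminf (fun n => G n (P, t)) atTop :=
    setLIntegral_le_lintegral _ _
  have s3 : ∫⁻ P, ∫⁻ t in Ioi (0 : ℝ), liminf (fun n => G n (P, t)) atTop ≤
      ∫⁻ P, liminf (fun n => ∫⁻ t in Ioi (0 : ℝ), G n (P, t)) atTop :=
    lintegral_mono fun P => lintegral_liminf_le fun n => (hGm n).comp measurable_prodMk_left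
  have s4 : ∫⁻ P, liminf (fun n => ∫⁻ t in Ioi (0 : ℝ), G n (P, t)) atTop ≤
      liminf (fun n => ∫⁻ P, ∫⁻ t in Ioi (0 : ℝ), G n (P, t)) atTop :=
    lintegral_liminf_le fun n => (hGm n).lintegral_prod_right'
  have s5 : ∀ n, ∫⁻ P, ∫⁻ t in Ioi (0 : ℝ), G n (P, t) ≤ B := by
    intro n
    refine le_trans (le_of_eq ?_) (hgb n)
    have h1 : ∀ P, ∫⁻ t in Ioi (0 : ℝ), G n (P, t) = (Ereg (g n) u d0 kap).indicator
        (fun P => ∫⁻ t in Ioi (0 : ℝ), enW (g n) u (R n) 0 P t) P := by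
      intro P
      by_cases hP : P ∈ Ereg (g n) u d0 kap
      · rw [indicator_of_mem hP]
        refine setLIntegral_congr_fun measurableSet_Ioi fun t ht => ?_
        show _ * _ = ENNReal.ofReal (om (P.re - 0)) * enR (g n) u (R n) 0 P t
        congr 1
        exact indicator_of_mem (show (P, t) ∈ Ereg (g n) u d0 kap ×ˢ Ioi (0 : ℝ) from ⟨hP, ht⟩)
          (fun p : ℂ × ℝ => enR (g n) u (R n) 0 p.1 p.2)
      · rw [indicator_of_notMem hP]
        have h2 : ∀ t, G n (P, t) = 0 := fun t => by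
          show _ * _ = (0 : ℝ≥0∞)
          rw [indicator_of_notMem (fun h => hP h.1), mul_zero]
        simp only [h2, lintegral_zero]
    simp only [h1]
    rw [lintegral_indicator (ereg_meas F hu (hg n))]
  have s6 : liminf (fun n => ∫⁻ P, ∫⁻ t in Ioi (0 : ℝ), G n (P, t)) atTop ≤ B := by
    refine (liminf_le_liminf (Eventually.of_forall s5)).trans ?_
    rw [liminf_const]
  exact s1.trans (s2.trans (s3.trans (s4.trans s6)))

end MP_ae5b4e_SD
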