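import Pool.Agent.Lib.MP_ae5b4e_an_SD.MainAe
import Pool.Agent.Lib.MP_ae5b4e_an_TS.Dich

/-! THEOREM B', final form, in terms of `PorTS.Good`, `PorTS.Generic`, `PorTS.tipq`. -/

open Complex Set Filter PorTR MeasureTheory Topology

namespace MP_ae5b4e_SD

theorem trajU_iff {q : ℂ → ℂ} {u P : ℂ} {l : ℝ → ℂ} : TrajU q u P l ↔ PorTS.Traj u q P l :=
  ⟨fun h => ⟨h.start, h.cont, h.low, h.val, h.reg⟩,
    fun h => ⟨h.start, h.cont, h.low, h.val, h.reg⟩⟩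

theorem good_iff {q : ℂ → ℂ} {u P : ℂ} (hu : u.re = 1) : Good q u P ↔ PorTS.Good u q P := by
  unfold Good PorTS.Good
  simp only [trajU_iff, hu, one_mul]

/-- THEOREM B'. There is a window limit `q` such that for almost every real `γ > 0`: no critical
value of `q` is on the spiral of the tip value `tipq γ`, and all points of a given box (depth
`> 2 d0`) on this spiral with `|q| < kap` are good. -/
theorem density_tip {W : Set (ℂ → ℂ)} {C d0 Ce kap : ℝ} (F : Fam W C d0 Ce kap) {u : ℂ}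
    (hu : u.re = 1) (hu' : u.im ≠ 0) (hcpt : Cpt W) (hne : W.Nonempty)
    {X : ℝ} (hX : 0 ≤ X) (C5 : ℝ) :
    ∃ q ∈ W, ∀ᵐ γ : ℝ, 0 < γ → PorTS.Generic u q (PorTS.tipq γ) ∧
      ∀ (P : ℂ) (r : ℝ), |P.re| ≤ X → 2 * d0 < -P.im → -P.im ≤ C5 → ‖q P‖ < kap →
        q P = PorTS.tipq γ * cexp (-2 * u * r) → PorTS.Good u q P := by
  obtain ⟨q, hq, h⟩ := density_gam F hu hu' (deepBd_of_fam F) hcpt hne hX C5
  refine ⟨q, hq, ?_⟩
  have hw : -((Real.exp 2 / 4 : ℝ) : ℂ) ≠ 0 := by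
    rw [neg_ne_zero, Complex.ofReal_ne_zero]
    positivity
  filter_upwards [h _ hw] with γ hγ hγ0
  have e : -((Real.exp 2 / 4 : ℝ) : ℂ) / (γ : ℂ) ^ 2 = PorTS.tipq γ := by
    have hγc : (γ : ℂ) ≠ 0 := by exact_mod_cast hγ0.ne'
    unfold PorTS.tipq
    push_cast
    field_simp
  obtain ⟨h1, h2⟩ := hγ hγ0
  rw [e] at h1 h2
  exact ⟨h1, fun P r a b c d f => (good_iff hu).1 (h2 P r a b c d f)⟩

end MP_ae5b4e_SD
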