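import Pool.Agent.Lib.MP_ae5b4e_an_SD.All2
import Pool.Agent.Lib.MP_ae5b4e_an_SD.Final

/-! THEOREM B', all boxes at once, end theorem `density_tip_all`: there is ONE window limit `q` such
that for almost every real `γ > 0` all points of depth `> 2 d0` on the spiral of the tip value
`tipq γ`, with `|q| < kap`, are good. -/

open Complex Set Filter PorTR MeasureTheory Topology
open scoped ENNReal

namespace MP_ae5b4e_SD

theorem density_ae_all {W : Set (ℂ → ℂ)} {C d0 Ce kap : ℝ} (F : Fam W C d0 Ce kap) {u : ℂ}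
    (hu : u.re = 1) (hbd : DeepBd W C d0) (hcpt : Cpt W) (hne : W.Nonempty) :
    ∃ q ∈ W, ∀ᵐ α : ℝ, GenU q u α ∧
      ∀ (P : ℂ) (x : ℝ), 2 * d0 < -P.im → ‖q P‖ < kap →
        q P = cexp (u * (x + α * I)) → Good q u P := by
  obtain ⟨q, hq, hen⟩ := finite_all F hu hbd hne hcpt
  refine ⟨q, hq, ?_⟩
  have hbx : ∀ X C5 : ℝ, MeasurableSet (bx X C5 0) := by
    intro X C5
    have h1 : IsOpen (bx X C5 0) :=
      (isOpen_lt ((continuous_re.sub continuous_const).abs) continuous_const).inter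
        (isOpen_lt continuous_im.neg continuous_const)
    exact h1.measurableSet
  have hfin : ∀ n : ℕ, ∫⁻ P in Ereg q u d0 kap ∩ bx n n 0,
      ∫⁻ t in Ioi (0 : ℝ), en q u P t < ⊤ := by
    intro n
    have h1 : ∀ P ∈ Ereg q u d0 kap ∩ bx n n 0, ∫⁻ t in Ioi (0 : ℝ), en q u P t ≤
        ENNReal.ofReal (1 + (n : ℝ) ^ 2) * ∫⁻ t in Ioi (0 : ℝ),
          ENNReal.ofReal (om (P.re - 0)) * en q u P t := by
      rintro P ⟨-, hP, -⟩
      rw [lintegral_const_mul' _ _ ENNReal.ofReal_ne_top, ← mul_assoc,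
        ← ENNReal.ofReal_mul (by positivity)]
      have h2 : 1 ≤ (1 + (n : ℝ) ^ 2) * om (P.re - 0) := by
        unfold om
        have h3 : (P.re - 0) ^ 2 ≤ (n : ℝ) ^ 2 := by
          rw [sq_le_sq, abs_of_nonneg (by positivity : (0 : ℝ) ≤ n)]
          exact hP.le
        rw [mul_one_div, le_div_iff₀ (by positivity)]
        linarith
      calc ∫⁻ t in Ioi (0 : ℝ), en q u P t = 1 * ∫⁻ t in Ioi (0 : ℝ), en q u P t :=
            (one_mul _).symm
        _ ≤ _ := mul_le_mul_left (by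
            rw [← ENNReal.ofReal_one]
            exact ENNReal.ofReal_le_ofReal h2) _
    refine lt_of_le_of_lt (setLIntegral_mono' ((ereg_meas F hu hq).inter (hbx _ _)) h1) ?_
    rw [lintegral_const_mul' _ _ ENNReal.ofReal_ne_top]
    refine ENNReal.mul_lt_top ENNReal.ofReal_lt_top ?_
    refine lt_of_le_of_lt (lintegral_mono_set inter_subset_left) ?_
    exact lt_of_le_of_lt hen ENNReal.ofReal_lt_top
  have h2 : ∀ n : ℕ, volume {α : ℝ | GenU q u α ∧ ∃ P, 2 * d0 < -P.im ∧ P ∈ bx n n 0 ∧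
      ‖q P‖ < kap ∧ ∃ x : ℝ, q P = cexp (u * (x + α * I)) ∧ ¬ GoodV q u P} = 0 := fun n =>
    glob_null F hu hbd hq (ae_good F hu hbd hq (hfin n))
  have hdiff : DifferentiableOn ℂ q Hm := F.hol q hq
  have h3 : volume {α : ℝ | ¬ GenU q u α} = 0 :=
    (countable_not_genU hdiff hu (gm_not_const F hq)).measure_zero _
  have h4 := measure_union_null h3 (measure_iUnion_null h2)
  rw [ae_iff]
  refine measure_mono_null ?_ h4
  intro α hα
  by_cases hg : GenU q u α
  · right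
    by_contra hno
    apply hα
    refine ⟨hg, ?_⟩
    intro P x hPd hk hqP
    have hPE : P ∈ Ereg q u d0 kap := mem_ereg hg hPd hk hqP
    apply good_of_goodV F hu hbd hq hPE
    by_contra hbad
    obtain ⟨n, hn⟩ := exists_nat_gt (max |P.re| (-P.im))
    refine hno (mem_iUnion.2 ⟨n, hg, P, hPd, ⟨?_, ?_⟩, hk, x, hqP, hbad⟩)
    · rw [sub_zero]
      exact (le_max_left _ _).trans_lt hn
    · exact (le_max_right _ _).trans_lt hn
  · left
    exact hg

/-- THEOREM B', all boxes, in terms of the real parameter `γ`: the spiral through `w / γ ^ 2`. -/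
theorem density_gam_all {W : Set (ℂ → ℂ)} {C d0 Ce kap : ℝ} (F : Fam W C d0 Ce kap) {u : ℂ}
    (hu : u.re = 1) (hu' : u.im ≠ 0) (hbd : DeepBd W C d0) (hcpt : Cpt W) (hne : W.Nonempty) :
    ∃ q ∈ W, ∀ w : ℂ, w ≠ 0 → ∀ᵐ γ : ℝ, 0 < γ →
      (∀ z ∈ Hm, deriv q z = 0 → ∀ r : ℝ, q z ≠ w / γ ^ 2 * cexp (-2 * u * r)) ∧
      ∀ (P : ℂ) (r : ℝ), 2 * d0 < -P.im → ‖q P‖ < kap →
        q P = w / γ ^ 2 * cexp (-2 * u * r) → Good q u P := by
  obtain ⟨q, hq, hae⟩ := density_ae_all F hu hbd hcpt hne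
  refine ⟨q, hq, fun w hw => ?_⟩
  have hu0 : u ≠ 0 := by
    rintro rfl
    simp at hu
  filter_upwards [ae_gam (w := w) hu' hae] with γ hγ hγ0
  obtain ⟨hg, hP⟩ := hγ hγ0
  have key : ∀ r : ℝ, w / (γ : ℂ) ^ 2 * cexp (-2 * u * r) =
      cexp (u * ((((log w / u).re - 2 * Real.log γ * (1 / u).re - 2 * r : ℝ) : ℂ) +
        (((log w / u).im - 2 * Real.log γ * (1 / u).im : ℝ) : ℂ) * I)) := by
    intro r
    have hγc : (γ : ℂ) ≠ 0 := by exact_mod_cast hγ0.ne'
    have h1 : w / (γ : ℂ) ^ 2 = cexp (log w - 2 * (Real.log γ : ℂ)) := by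
      rw [Complex.exp_sub, exp_log hw]
      congr 1
      rw [two_mul, Complex.exp_add, ← Complex.ofReal_exp, Real.exp_log hγ0]
      ring
    rw [h1, ← Complex.exp_add]
    congr 1
    have h2 : (((log w / u).re - 2 * Real.log γ * (1 / u).re - 2 * r : ℝ) : ℂ) +
        (((log w / u).im - 2 * Real.log γ * (1 / u).im : ℝ) : ℂ) * I =
        log w / u - 2 * (Real.log γ : ℂ) * (1 / u) - 2 * r := by
      have h3 : (((log w / u).re : ℝ) : ℂ) + (((log w / u).im : ℝ) : ℂ) * I = log w / u :=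
        re_add_im _
      have h4 : (((1 / u).re : ℝ) : ℂ) + (((1 / u).im : ℝ) : ℂ) * I = 1 / u := re_add_im _
      push_cast
      linear_combination h3 - 2 * (Real.log γ : ℂ) * h4
    rw [h2]
    field_simp
    ring
  refine ⟨fun z hz hz0 r heq => ?_, fun P r h1 h4 h5 => ?_⟩
  · exact hg z hz hz0 _ (heq.trans (key r))
  · exact hP P _ h1 h4 (h5.trans (key r))

/-- THEOREM B', final form. There is ONE window limit `q` such that for almost every real `γ > 0`:
no critical value of `q` is on the spiral of the tip value `tipq γ`, and all points of depth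
`> 2 d0` on this spiral with `|q| < kap` are good. -/
theorem density_tip_all {W : Set (ℂ → ℂ)} {C d0 Ce kap : ℝ} (F : Fam W C d0 Ce kap) {u : ℂ}
    (hu : u.re = 1) (hu' : u.im ≠ 0) (hcpt : Cpt W) (hne : W.Nonempty) :
    ∃ q ∈ W, ∀ᵐ γ : ℝ, 0 < γ → PorTS.Generic u q (PorTS.tipq γ) ∧
      ∀ (P : ℂ) (r : ℝ), 2 * d0 < -P.im → ‖q P‖ < kap →
        q P = PorTS.tipq γ * cexp (-2 * u * r) → PorTS.Good u q P := by
  obtain ⟨q, hq, h⟩ := density_gam_all F hu hu' (deepBd_of_fam F) hcpt hne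
  refine ⟨q, hq, ?_⟩
  have hw : -((Real.exp 2 / 4 : ℝ) : ℂ) ≠ 0 := by
    rw [neg_ne_zero, Complex.ofReal_ne_zero]
    positivity
  filter_upwards [h _ hw] with γ hγ hγ0
  have e : -((Real.exp 2 / 4 : ℝ) : ℂ) / (γ : ℂ) ^ 2 = PorTS.tipq γ := by
    have hγc : (γ : ℂ) ≠ 0 := by exact_mod_cast hγ0.ne'
    unfold PorTS.tipq
    push_cast
    field_simp
  obtain ⟨h1, h2⟩ := hγ hγ0
  rw [e] at h1 h2
  exact ⟨h1, fun P r a d f => (good_iff hu).1 (h2 P r a d f)⟩

end MP_ae5b4e_SD
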