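import Pool.Agent.Lib.MP_ae5b4e_an_TR.U

/-! THEOREM B' (density by averaging over places), SPIRAL version: definitions. `W` is the family of
window limits (`Fam W C d0 Ce kap`), `Cpt W` its sequential compactness, `u` a complex number with
`Re u = 1`; trajectories satisfy `q (l t) = q P * exp (-2 u t)`. -/

open Complex Set Filter PorTR MeasureTheory Topology
open scoped ENNReal

namespace MP_ae5b4e_SD

/-- sequential compactness for locally uniform convergence -/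
def Cpt (W : Set (ℂ → ℂ)) : Prop :=
  ∀ f : ℕ → ℂ → ℂ, (∀ n, f n ∈ W) → ∃ q ∈ W, ∃ φ : ℕ → ℕ, StrictMono φ ∧
    TendstoLocallyUniformlyOn (fun n => f (φ n)) q atTop Hm

/-- the bound at depth `≥ d0` (all that is used) -/
def DeepBd (W : Set (ℂ → ℂ)) (C d0 : ℝ) : Prop :=
  ∀ q ∈ W, ∀ z : ℂ, z.im ≤ -d0 → ‖q z‖ ≤ C / z.im ^ 2

/-- regular starting points: depth `> 2 d0`, `0 < |q P| < kap`, no critical value of `q` on the
spiral through `q P` -/
def Ereg (q : ℂ → ℂ) (u : ℂ) (d0 kap : ℝ) : Set ℂ :=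
  {P | 2 * d0 < -P.im ∧ q P ≠ 0 ∧ ‖q P‖ < kap ∧
    ∀ z ∈ Hm, deriv q z = 0 → ∀ r : ℝ, q z ≠ q P * cexp (u * r)}

open Classical in
/-- the trajectory of `P` (junk: constant) -/
noncomputable def tr (q : ℂ → ℂ) (u P : ℂ) : ℝ → ℂ :=
  if h : ∃ l, TrajU q u P l then h.choose else fun _ => P

/-- speed of the flow `l' = - 2 u q / q'` at `z` -/
noncomputable def vel (q : ℂ → ℂ) (u z : ℂ) : ℝ := 2 * ‖u‖ * ‖q z‖ / ‖deriv q z‖

/-- derivative of the flow map `P ↦ tr q u P t` -/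
noncomputable def dtr (q : ℂ → ℂ) (u P : ℂ) (t : ℝ) : ℂ :=
  deriv q P * cexp (-2 * u * t) / deriv q (tr q u P t)

/-- weight of the starting point -/
noncomputable def wt (q : ℂ → ℂ) (P : ℂ) : ℝ := ‖deriv q P‖ ^ 2 / ‖q P‖

/-- the energy density `e^{-2t} (1+t)^4 |l'|^2 w(P)` -/
noncomputable def en (q : ℂ → ℂ) (u P : ℂ) (t : ℝ) : ℝ≥0∞ :=
  ENNReal.ofReal (Real.exp (-2 * t) * (1 + t) ^ 4 * vel q u (tr q u P t) ^ 2 * wt q P)

/-- the same, cut off at horizontal distance `R` from `x` -/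
noncomputable def enR (q : ℂ → ℂ) (u : ℂ) (R x : ℝ) (P : ℂ) (t : ℝ) : ℝ≥0∞ :=
  {t | |(tr q u P t).re - x| ≤ R}.indicator (fun t => en q u P t) t

/-- open box with centre `x` -/
def bx (X C5 x : ℝ) : Set ℂ := {P | |P.re - x| < X ∧ -P.im < C5}

/-- `P` is good (internal form) -/
def GoodV (q : ℂ → ℂ) (u P : ℂ) : Prop :=
  ∫⁻ t in Ioi (0 : ℝ), ENNReal.ofReal (Real.exp (-t) * (1 + t) * vel q u (tr q u P t)) < ⊤

/-- `P` is good: the trajectory exists for all times and `∫ e^{-t} (1+t) |l'(t)| dt < ∞` -/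
def Good (q : ℂ → ℂ) (u P : ℂ) : Prop :=
  ∃ l, TrajU q u P l ∧ IntegrableOn (fun t => Real.exp (-t) * (1 + t) * ‖deriv l t‖) (Ioi 0)

theorem deepBd_of_fam {W : Set (ℂ → ℂ)} {C d0 Ce kap : ℝ} (F : Fam W C d0 Ce kap) :
    DeepBd W C d0 := by
  intro q hq z hz
  have hd := F.d0_pos
  apply F.bound q hq z
  show z.im < 0
  linarith

theorem ereg_low {q : ℂ → ℂ} {u : ℂ} {d0 kap : ℝ} (hd : 0 < d0) {P : ℂ}
    (h : P ∈ Ereg q u d0 kap) : P ∈ Hm := by
  have h1 := h.1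
  show P.im < 0
  linarith

/-- existence of the trajectory of a regular starting point -/
theorem tr_traj {W : Set (ℂ → ℂ)} {C d0 Ce kap : ℝ} (F : Fam W C d0 Ce kap) {u : ℂ}
    (hu : u.re = 1) {q : ℂ → ℂ} (hq : q ∈ W) {P : ℂ} (h : P ∈ Ereg q u d0 kap) :
    TrajU q u P (tr q u P) := by
  have hex : ∃ l, TrajU q u P l := by
    obtain ⟨l, hl, _⟩ := F.dichU hu hq h.1.le h.2.1 h.2.2.1 (fun z hz hz0 t _ heq => by
      refine h.2.2.2 z hz hz0 (-2 * t) (heq.trans ?_)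
      congr 2
      push_cast
      ring)
    exact ⟨l, hl⟩
  unfold tr
  rw [dif_pos hex]
  exact hex.choose_spec

/-- a point on a generic spiral is a regular starting point -/
theorem mem_ereg {q : ℂ → ℂ} {u : ℂ} {d0 kap α x : ℝ} (hg : GenU q u α) {P : ℂ}
    (hP : 2 * d0 < -P.im) (hk : ‖q P‖ < kap) (hqP : q P = cexp (u * (x + α * I))) :
    P ∈ Ereg q u d0 kap := by
  refine ⟨hP, ?_, hk, ?_⟩
  · rw [hqP]
    exact exp_ne_zero _
  · intro z hz hz0 r heq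
    refine hg z hz hz0 (x + r) (heq.trans ?_)
    rw [hqP, ← Complex.exp_add]
    congr 1
    push_cast
    ring

/-- a regular starting point is a regular point of `q` -/
theorem ereg_reg {q : ℂ → ℂ} {u : ℂ} {d0 kap : ℝ} (hd : 0 < d0) {P : ℂ}
    (h : P ∈ Ereg q u d0 kap) : deriv q P ≠ 0 := by
  intro h0
  refine h.2.2.2 P (ereg_low hd h) h0 0 ?_
  simp

end MP_ae5b4e_SD
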