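import Pool.Agent.Lib.MP_ae5b4e_an_SD.GFlow

/-! THEOREM B', module GMeas: measurability, and the set of non generic points is null.

`ereg_meas`. PROOF. `q` is holomorphic on `Hm` and not constant (`F.osc` excludes constants), so the
zeros of `deriv q` in `Hm` form a countable set, hence the set `V` of critical values is countable;
the spiral through a critical value is a countable union of compact sets.

`nongeneric_null`. PROOF. A spiral is null, preimages of null sets under `q` are null.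

`en_meas`, `enR_meas`. PROOF. On the measurable set `S = Ereg ×ˢ Ioi 0` the map
`(P, t) ↦ en q u P t` is continuous; the cut-off set is relatively closed in `S`. -/

open Complex Set Filter PorTR MeasureTheory Topology
open scoped ENNReal

namespace MP_ae5b4e_SD

private theorem gm_open : IsOpen Hm := isOpen_lt Complex.continuous_im continuous_const

theorem gm_not_const {W : Set (ℂ → ℂ)} {C d0 Ce kap : ℝ} (F : Fam W C d0 Ce kap)
    {q : ℂ → ℂ} (hq : q ∈ W) : ¬ ∃ c : ℂ, ∀ z ∈ Hm, q z = c := by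
  rintro ⟨c, hc⟩
  have hd := F.d0_pos
  obtain ⟨e, he, hosc⟩ := F.osc 1 one_pos d0
  have hcont : ContinuousOn (fun t : ℝ => (t : ℂ) - (d0 : ℂ) * I) (Icc 0 1) := by
    fun_prop
  have hmap : MapsTo (fun t : ℝ => (t : ℂ) - (d0 : ℂ) * I) (Icc 0 1) (Strip d0 d0) := by
    intro t _
    show d0 ≤ -((t : ℂ) - (d0 : ℂ) * I).im ∧ -((t : ℂ) - (d0 : ℂ) * I).im ≤ d0
    simp
  have hdist : 1 ≤ dist ((fun t : ℝ => (t : ℂ) - (d0 : ℂ) * I) 0)
      ((fun t : ℝ => (t : ℂ) - (d0 : ℂ) * I) 1) := by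
    have h : (((0 : ℝ) : ℂ) - (d0 : ℂ) * I) - (((1 : ℝ) : ℂ) - (d0 : ℂ) * I) = -1 := by
      push_cast
      ring
    show 1 ≤ dist (((0 : ℝ) : ℂ) - (d0 : ℂ) * I) (((1 : ℝ) : ℂ) - (d0 : ℂ) * I)
    rw [dist_eq_norm, h]
    simp
  obtain ⟨t, ht, hle⟩ := hosc q hq 0 1 _ zero_le_one hcont hmap hdist
  have hH : ∀ t : ℝ, (t : ℂ) - (d0 : ℂ) * I ∈ Hm := by
    intro t
    show ((t : ℂ) - (d0 : ℂ) * I).im < 0
    simpa using hd
  have h1 : q ((t : ℂ) - (d0 : ℂ) * I) = c := hc _ (hH t)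
  have h2 : q (((0 : ℝ) : ℂ) - (d0 : ℂ) * I) = c := hc _ (hH 0)
  have : dist (q ((t : ℂ) - (d0 : ℂ) * I)) (q (((0 : ℝ) : ℂ) - (d0 : ℂ) * I)) = 0 := by
    rw [h1, h2, dist_self]
  have hle' : e ≤ dist (q ((t : ℂ) - (d0 : ℂ) * I)) (q (((0 : ℝ) : ℂ) - (d0 : ℂ) * I)) := hle
  rw [this] at hle'
  exact absurd hle' (not_le.mpr he)

private theorem gm_crit {q : ℂ → ℂ} (hq : DifferentiableOn ℂ q Hm)
    (hc : ¬ ∃ c : ℂ, ∀ z ∈ Hm, q z = c) : ({z | z ∈ Hm ∧ deriv q z = 0}).Countable := by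
  have hop : IsOpen Hm := gm_open
  have hconv : Convex ℝ Hm := convex_halfSpace_im_lt 0
  have hne : (-I : ℂ) ∈ Hm := by simp [Hm]
  have hconn : IsConnected Hm := ⟨⟨_, hne⟩, hconv.isPreconnected⟩
  have hder : AnalyticOnNhd ℂ (deriv q) Hm := (hq.analyticOnNhd hop).deriv
  obtain ⟨x, hx, hx0⟩ : ∃ x ∈ Hm, deriv q x ≠ 0 := by
    by_contra hcon
    push Not at hcon
    apply hc
    obtain ⟨c, hc'⟩ := hop.exists_is_const_of_deriv_eq_zero hconv.isPreconnected hq
      (fun z hz => hcon z hz)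
    exact ⟨c, hc'⟩
  have h1 := hder.preimage_zero_mem_codiscreteWithin hx0 hx hconn
  have h2 : ((deriv q ⁻¹' {0}ᶜ)ᶜ ∩ Hm).Countable := by
    apply (HereditarilyLindelofSpace.isLindelof _).countable_of_isDiscrete
      (isDiscrete_of_codiscreteWithin _)
    simpa using! h1
  refine h2.mono ?_
  rintro z ⟨hz, hz0⟩
  exact ⟨by simp [hz0], hz⟩

private theorem gm_pre {α β : Type*} [TopologicalSpace α] [MeasurableSpace α]
    [OpensMeasurableSpace α] [TopologicalSpace β] [MeasurableSpace β] [BorelSpace β] {S : Set α}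
    (hS : MeasurableSet S) {f : α → β} (hf : ContinuousOn f S) {M : Set β}
    (hM : MeasurableSet M) : MeasurableSet (S ∩ f ⁻¹' M) := by
  have h1 : Measurable (S.domRestrict f) :=
    (continuousOn_iff_continuous_domRestrict.1 hf).measurable
  have h2 := hS.subtype_image (h1 hM)
  have h3 : Subtype.val '' (S.domRestrict f ⁻¹' M) = S ∩ f ⁻¹' M := by
    ext x
    constructor
    · rintro ⟨y, hy, rfl⟩
      exact ⟨y.2, hy⟩
    · rintro ⟨hx, hx'⟩
      exact ⟨⟨x, hx⟩, hx', rfl⟩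
  rwa [h3] at h2

private theorem gm_ray (u v : ℂ) : MeasurableSet {w : ℂ | ∃ r : ℝ, v = w * cexp (u * r)} := by
  have h1 : {w : ℂ | ∃ r : ℝ, v = w * cexp (u * r)} =
      ⋃ n : ℕ, (fun r : ℝ => v * cexp (-u * r)) '' Icc (-(n : ℝ)) n := by
    ext w
    simp only [mem_iUnion]
    constructor
    · rintro ⟨r, h⟩
      obtain ⟨n, hn⟩ := exists_nat_ge |r|
      refine ⟨n, r, ⟨by linarith [neg_abs_le r], by linarith [le_abs_self r]⟩, ?_⟩
      show v * cexp (-u * r) = w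
      rw [h, mul_assoc, ← Complex.exp_add, neg_mul, add_neg_cancel, Complex.exp_zero, mul_one]
    · rintro ⟨n, r, -, h⟩
      refine ⟨r, ?_⟩
      have h' : v * cexp (-u * r) = w := h
      rw [← h', mul_assoc, ← Complex.exp_add, neg_mul, neg_add_cancel, Complex.exp_zero, mul_one]
  rw [h1]
  refine MeasurableSet.iUnion fun n => ?_
  exact (isCompact_Icc.image (by fun_prop)).measurableSet

theorem ereg_meas {W : Set (ℂ → ℂ)} {C d0 Ce kap : ℝ} (F : Fam W C d0 Ce kap) {u : ℂ}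
    (hu : u.re = 1) {q : ℂ → ℂ}
    (hq : q ∈ W) : MeasurableSet (Ereg q u d0 kap) := by
  have hhol := F.hol q hq
  have hZ := gm_crit hhol (gm_not_const F hq)
  let M : Set ℂ := ({w | w ≠ 0} ∩ {w | ‖w‖ < kap}) ∩
    (⋃ z ∈ {z | z ∈ Hm ∧ deriv q z = 0}, {w : ℂ | ∃ r : ℝ, q z = w * cexp (u * r)})ᶜ
  have hM : MeasurableSet M := by
    refine MeasurableSet.inter (MeasurableSet.inter ?_ ?_) ?_
    · exact (isOpen_ne_fun continuous_id continuous_const).measurableSet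
    · exact (isOpen_lt continuous_norm continuous_const).measurableSet
    · exact (MeasurableSet.biUnion hZ fun z _ => gm_ray u (q z)).compl
  have h1 : Ereg q u d0 kap = {P : ℂ | 2 * d0 < -P.im} ∩ (Hm ∩ q ⁻¹' M) := by
    ext P
    constructor
    · intro hP
      refine ⟨hP.1, ereg_low F.d0_pos hP, ⟨hP.2.1, hP.2.2.1⟩, ?_⟩
      intro hcon
      simp only [mem_iUnion] at hcon
      obtain ⟨z, ⟨hz, hz0⟩, r, h⟩ := hcon
      exact hP.2.2.2 z hz hz0 r h
    · rintro ⟨h1, h2, ⟨h3, h4⟩, h5⟩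
      refine ⟨h1, h3, h4, ?_⟩
      intro z hz hz0 r h
      apply h5
      simp only [mem_iUnion]
      exact ⟨z, ⟨hz, hz0⟩, r, h⟩
  rw [h1]
  refine MeasurableSet.inter ?_ (gm_pre gm_open.measurableSet hhol.continuousOn hM)
  exact (isOpen_lt continuous_const (by fun_prop)).measurableSet

private theorem gm_line (u v : ℂ) : volume {w : ℂ | ∃ r : ℝ, v = w * cexp (u * r)} = 0 := by
  have h1 : Submodule.span ℝ {(1 : ℂ)} ≠ ⊤ := by
    intro h
    have h2 := finrank_span_singleton (K := ℝ) (one_ne_zero (α := ℂ))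
    rw [h, finrank_top, Complex.finrank_real_complex] at h2
    omega
  have h2 : volume ((Submodule.span ℝ {(1 : ℂ)} : Submodule ℝ ℂ) : Set ℂ) = 0 :=
    Measure.addHaar_submodule volume _ h1
  have hd : DifferentiableOn ℝ (fun ζ : ℂ => v * cexp (-u * ζ))
      ((Submodule.span ℝ {(1 : ℂ)} : Submodule ℝ ℂ) : Set ℂ) := by
    intro ζ _
    have h3 : DifferentiableAt ℂ (fun ζ : ℂ => v * cexp (-u * ζ)) ζ := by fun_prop
    exact (h3.restrictScalars ℝ).differentiableWithinAt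
  refine measure_mono_null ?_
    (addHaar_image_eq_zero_of_differentiableOn_of_addHaar_eq_zero volume hd h2)
  rintro w ⟨r, h⟩
  refine ⟨(r : ℂ), ?_, ?_⟩
  · rw [SetLike.mem_coe, Submodule.mem_span_singleton]
    exact ⟨r, by rw [Complex.real_smul, mul_one]⟩
  · show v * cexp (-u * r) = w
    rw [h, mul_assoc, ← Complex.exp_add, neg_mul, add_neg_cancel, Complex.exp_zero, mul_one]

private theorem gm_null {q : ℂ → ℂ} (hq : DifferentiableOn ℂ q Hm)
    (hc : ¬ ∃ c : ℂ, ∀ z ∈ Hm, q z = c) {M : Set ℂ} (hM : volume M = 0) :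
    volume (Hm ∩ q ⁻¹' M) = 0 := by
  have hZ := gm_crit hq hc
  have hder : ContinuousOn (deriv q) Hm := ((hq.analyticOnNhd gm_open).deriv).continuousOn
  have hU : IsOpen (Hm ∩ deriv q ⁻¹' {0}ᶜ) :=
    hder.isOpen_inter_preimage gm_open isOpen_compl_singleton
  set U : Set ℂ := Hm ∩ deriv q ⁻¹' {0}ᶜ with hUdef
  have h1 : volume (U ∩ q ⁻¹' M) = 0 := by
    refine measure_null_of_locally_null _ ?_
    rintro P ⟨hPU, hPM⟩
    have hPH : P ∈ Hm := hPU.1
    have hP0 : deriv q P ≠ 0 := hPU.2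
    have hqs : HasStrictDerivAt q (deriv q P) P :=
      (hq.analyticAt (gm_open.mem_nhds hPH)).hasStrictDerivAt
    let e := (hqs.hasStrictFDerivAt_equiv hP0).toOpenPartialHomeomorph q
    have he : ∀ x, e x = q x := fun x => rfl
    have hPe : P ∈ e.source :=
      (hqs.hasStrictFDerivAt_equiv hP0).mem_toOpenPartialHomeomorph_source
    refine ⟨(U ∩ q ⁻¹' M) ∩ e.source, ?_, ?_⟩
    · exact inter_mem_nhdsWithin _ (e.open_source.mem_nhds hPe)
    · have hd : DifferentiableOn ℝ e.symm (M ∩ (e.target ∩ e.symm ⁻¹' U)) := by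
        rintro a ⟨-, ha, haU⟩
        have h2 : HasDerivAt e (deriv q (e.symm a)) (e.symm a) := by
          have h3 : DifferentiableAt ℂ q (e.symm a) :=
            (hq.differentiableAt (gm_open.mem_nhds haU.1))
          exact h3.hasDerivAt
        have h4 := e.hasDerivAt_symm ha haU.2 h2
        exact (h4.differentiableAt.restrictScalars ℝ).differentiableWithinAt
      have h5 := addHaar_image_eq_zero_of_differentiableOn_of_addHaar_eq_zero volume hd
        (measure_mono_null inter_subset_left hM)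
      refine measure_mono_null ?_ h5
      rintro x ⟨⟨hxU, hxM⟩, hxe⟩
      have h6 : e.symm (q x) = x := e.left_inv hxe
      refine ⟨q x, ⟨hxM, e.map_source hxe, ?_⟩, h6⟩
      rw [mem_preimage, h6]
      exact hxU
  have h2 : volume ({z | z ∈ Hm ∧ deriv q z = 0}) = 0 := hZ.measure_zero volume
  refine measure_mono_null ?_ (measure_union_null h1 h2)
  rintro P ⟨hP, hPM⟩
  by_cases h0 : deriv q P = 0
  · exact Or.inr ⟨hP, h0⟩
  · exact Or.inl ⟨⟨hP, h0⟩, hPM⟩

theorem nongeneric_null {W : Set (ℂ → ℂ)} {C d0 Ce kap : ℝ} (F : Fam W C d0 Ce kap) {u : ℂ}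
    (hu : u.re = 1) {q : ℂ → ℂ}
    (hq : q ∈ W) :
    volume {P : ℂ | P ∈ Hm ∧ ∃ z ∈ Hm, deriv q z = 0 ∧ ∃ r : ℝ, q z = q P * cexp (u * r)}
      = 0 := by
  have hhol := F.hol q hq
  have hnc := gm_not_const F hq
  have hZ := gm_crit hhol hnc
  have h1 : volume (⋃ z ∈ {z | z ∈ Hm ∧ deriv q z = 0},
      {P : ℂ | P ∈ Hm ∧ ∃ r : ℝ, q z = q P * cexp (u * r)}) = 0 := by
    rw [measure_biUnion_null_iff hZ]
    rintro z -
    refine measure_mono_null ?_ (gm_null hhol hnc (gm_line u (q z)))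
    rintro P ⟨hP, r, h⟩
    exact ⟨hP, r, h⟩
  refine measure_mono_null ?_ h1
  rintro P ⟨hP, z, hz, hz0, r, h⟩
  simp only [mem_iUnion]
  exact ⟨z, ⟨hz, hz0⟩, hP, r, h⟩

private theorem gm_ind {α β : Type*} [TopologicalSpace α] [MeasurableSpace α]
    [OpensMeasurableSpace α] [TopologicalSpace β] [MeasurableSpace β] [BorelSpace β] [Zero β]
    {S : Set α} (hS : MeasurableSet S) {f : α → β} (hf : ContinuousOn f S) :
    Measurable (S.indicator f) := by
  classical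
  have h : Measurable (S.piecewise f 0) :=
    ContinuousOn.measurable_piecewise hf continuousOn_const hS
  rwa [piecewise_eq_indicator] at h

private theorem gm_cont {W : Set (ℂ → ℂ)} {C d0 Ce kap : ℝ} (F : Fam W C d0 Ce kap) {u : ℂ}
    (hu : u.re = 1)
    (hbd : DeepBd W C d0) {q : ℂ → ℂ} (hq : q ∈ W) :
    ContinuousOn (fun p : ℂ × ℝ => en q u p.1 p.2) (Ereg q u d0 kap ×ˢ Ioi (0 : ℝ)) := by
  have hhol := F.hol q hq
  have hder : ContinuousOn (deriv q) Hm := ((hhol.analyticOnNhd gm_open).deriv).continuousOn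
  have htr : ContinuousOn (fun p : ℂ × ℝ => tr q u p.1 p.2) (Ereg q u d0 kap ×ˢ Ioi (0 : ℝ)) :=
    (tr_cont F hu hbd hq).mono (prod_mono_right Ioi_subset_Ici_self)
  have hmap : MapsTo (fun p : ℂ × ℝ => tr q u p.1 p.2) (Ereg q u d0 kap ×ˢ Ioi (0 : ℝ)) Hm := by
    rintro p ⟨hp, ht⟩
    have h1 := (tr_facts F hu hq hp (le_of_lt ht)).1
    have h2 := F.d0_pos
    show (tr q u p.1 p.2).im < 0
    linarith
  have hfst : ContinuousOn (fun p : ℂ × ℝ => p.1) (Ereg q u d0 kap ×ˢ Ioi (0 : ℝ)) :=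
    continuous_fst.continuousOn
  have hmap1 : MapsTo (fun p : ℂ × ℝ => p.1) (Ereg q u d0 kap ×ˢ Ioi (0 : ℝ)) Hm := by
    rintro p ⟨hp, -⟩
    exact ereg_low F.d0_pos hp
  have h1 := hhol.continuousOn.comp htr hmap
  have h2 := hder.comp htr hmap
  have h3 := hhol.continuousOn.comp hfst hmap1
  have h4 := hder.comp hfst hmap1
  have hv : ContinuousOn (fun p : ℂ × ℝ => vel q u (tr q u p.1 p.2))
      (Ereg q u d0 kap ×ˢ Ioi (0 : ℝ)) := by
    refine ContinuousOn.div (continuousOn_const.mul h1.norm) h2.norm ?_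
    rintro p ⟨hp, ht⟩
    exact norm_ne_zero_iff.2 (tr_facts F hu hq hp (le_of_lt ht)).2.2.2
  have hw : ContinuousOn (fun p : ℂ × ℝ => wt q p.1) (Ereg q u d0 kap ×ˢ Ioi (0 : ℝ)) := by
    refine ContinuousOn.div (h4.norm.pow 2) h3.norm ?_
    rintro p ⟨hp, -⟩
    exact norm_ne_zero_iff.2 hp.2.1
  have h5 : ContinuousOn (fun p : ℂ × ℝ => Real.exp (-2 * p.2) * (1 + p.2) ^ 4 *
      vel q u (tr q u p.1 p.2) ^ 2 * wt q p.1) (Ereg q u d0 kap ×ˢ Ioi (0 : ℝ)) := by
    refine ContinuousOn.mul (ContinuousOn.mul ?_ (hv.pow 2)) hw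
    exact Continuous.continuousOn (by fun_prop)
  exact ENNReal.continuous_ofReal.comp_continuousOn h5

theorem en_meas {W : Set (ℂ → ℂ)} {C d0 Ce kap : ℝ} (F : Fam W C d0 Ce kap) {u : ℂ}
    (hu : u.re = 1)
    (hbd : DeepBd W C d0) {q : ℂ → ℂ} (hq : q ∈ W) :
    Measurable ((Ereg q u d0 kap ×ˢ Ioi (0 : ℝ)).indicator (fun p : ℂ × ℝ => en q u p.1 p.2)) :=
  gm_ind ((ereg_meas F hu hq).prod measurableSet_Ioi) (gm_cont F hu hbd hq)

theorem enR_meas {W : Set (ℂ → ℂ)} {C d0 Ce kap : ℝ} (F : Fam W C d0 Ce kap) {u : ℂ}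
    (hu : u.re = 1)
    (hbd : DeepBd W C d0) {q : ℂ → ℂ} (hq : q ∈ W) (R x : ℝ) :
    Measurable ((Ereg q u d0 kap ×ˢ Ioi (0 : ℝ)).indicator
      (fun p : ℂ × ℝ => enR q u R x p.1 p.2)) := by
  have hS := (ereg_meas F hu hq).prod (measurableSet_Ioi (a := (0 : ℝ)))
  have htr : ContinuousOn (fun p : ℂ × ℝ => |(tr q u p.1 p.2).re - x|)
      (Ereg q u d0 kap ×ˢ Ioi (0 : ℝ)) := by
    have h := (tr_cont F hu hbd hq).mono (prod_mono_right (Ioi_subset_Ici_self (a := (0 : ℝ)))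
      (s := Ereg q u d0 kap))
    exact ((Complex.continuous_re.comp_continuousOn h).sub continuousOn_const).abs
  have hA := gm_pre hS htr (measurableSet_Iic (a := R))
  have h1 := gm_ind hA ((gm_cont F hu hbd hq).mono inter_subset_left)
  have h2 : (Ereg q u d0 kap ×ˢ Ioi (0 : ℝ)).indicator (fun p : ℂ × ℝ => enR q u R x p.1 p.2) =
      ((Ereg q u d0 kap ×ˢ Ioi (0 : ℝ)) ∩
        (fun p : ℂ × ℝ => |(tr q u p.1 p.2).re - x|) ⁻¹' Iic R).indicator
        (fun p : ℂ × ℝ => en q u p.1 p.2) := by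
    funext p
    by_cases hp : p ∈ Ereg q u d0 kap ×ˢ Ioi (0 : ℝ)
    · rw [indicator_of_mem hp]
      by_cases hR : |(tr q u p.1 p.2).re - x| ≤ R
      · have hm : p ∈ (Ereg q u d0 kap ×ˢ Ioi (0 : ℝ)) ∩
            (fun p : ℂ × ℝ => |(tr q u p.1 p.2).re - x|) ⁻¹' Iic R := ⟨hp, hR⟩
        rw [indicator_of_mem hm]
        exact indicator_of_mem (s := {t | |(tr q u p.1 t).re - x| ≤ R}) hR _
      · rw [indicator_of_notMem (fun h => hR h.2)]
        exact indicator_of_notMem (s := {t | |(tr q u p.1 t).re - x| ≤ R}) hR _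
    · rw [indicator_of_notMem hp, indicator_of_notMem (fun h => hp h.1)]
  rw [h2]
  exact h1

end MP_ae5b4e_SD
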