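import Pool.Agent.Lib.MP_ae5b4e_an_SD.MainG

/-! THEOREM B', end theorems (spiral version): there is a window limit `q` such that for almost
every
`α` all points in a given box, on the spiral of parameter `α` and with `|q| < kap`, are good; and
the
version with a real parameter `γ`. -/

open Complex Set Filter PorTR MeasureTheory Topology
open scoped ENNReal

namespace MP_ae5b4e_SD

theorem density_ae {W : Set (ℂ → ℂ)} {C d0 Ce kap : ℝ} (F : Fam W C d0 Ce kap) {u : ℂ}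
    (hu : u.re = 1) (hbd : DeepBd W C d0) (hcpt : Cpt W) (hne : W.Nonempty) {X : ℝ} (hX : 0 ≤ X)
    (C5 : ℝ) :
    ∃ q ∈ W, ∀ᵐ α : ℝ, GenU q u α ∧
      ∀ (P : ℂ) (x : ℝ), |P.re| ≤ X → 2 * d0 < -P.im → -P.im ≤ C5 → ‖q P‖ < kap →
        q P = cexp (u * (x + α * I)) → Good q u P := by
  obtain ⟨q, hq, hen⟩ := finite_energy F hu hbd hne hcpt (X := X + 1) (C5 + 1) (by linarith)
  refine ⟨q, hq, ?_⟩
  have h1 := ae_good F hu hbd hq (X := X + 1) (C5 := C5 + 1)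
    (lt_of_le_of_lt hen ENNReal.ofReal_lt_top)
  have h2 := glob_null F hu hbd hq h1
  have hdiff : DifferentiableOn ℂ q Hm := F.hol q hq
  have h3 : volume {α : ℝ | ¬ GenU q u α} = 0 :=
    (countable_not_genU hdiff hu (gm_not_const F hq)).measure_zero _
  have h4 : volume ({α : ℝ | ¬ GenU q u α} ∪
      {α : ℝ | GenU q u α ∧ ∃ P, 2 * d0 < -P.im ∧ P ∈ bx (X + 1) (C5 + 1) 0 ∧ ‖q P‖ < kap ∧
      ∃ x : ℝ, q P = cexp (u * (x + α * I)) ∧ ¬ GoodV q u P}) = 0 := measure_union_null h3 h2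
  rw [ae_iff]
  refine measure_mono_null ?_ h4
  intro α hα
  by_cases hg : GenU q u α
  · right
    refine ⟨hg, ?_⟩
    by_contra hno
    apply hα
    refine ⟨hg, ?_⟩
    intro P x hPX hPd hPC hk hqP
    have hPE : P ∈ Ereg q u d0 kap := mem_ereg hg hPd hk hqP
    apply good_of_goodV F hu hbd hq hPE
    by_contra hbad
    exact hno ⟨P, hPd, ⟨by rw [sub_zero]; linarith, by linarith⟩, hk, x, hqP, hbad⟩
  · left
    exact hg

/-- a null set of spirals gives a null set of real parameters `γ`: the spiral of `w / γ ^ 2` has the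
parameter `Im (log w / u) - 2 log γ * Im (1 / u)`. -/
theorem ae_gam {u w : ℂ} (hu : u.im ≠ 0) {p : ℝ → Prop} (hp : ∀ᵐ α : ℝ, p α) :
    ∀ᵐ γ : ℝ, 0 < γ → p ((log w / u).im - 2 * Real.log γ * (1 / u).im) := by
  have hc : (1 / u).im ≠ 0 := by
    rw [one_div, Complex.inv_im]
    have h1 : Complex.normSq u ≠ 0 := by
      rw [Ne, Complex.normSq_eq_zero]
      rintro rfl
      exact hu rfl
    exact div_ne_zero (neg_ne_zero.2 hu) h1
  obtain ⟨a, ha⟩ : ∃ a : ℝ, a = (log w / u).im := ⟨_, rfl⟩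
  obtain ⟨c, hc'⟩ : ∃ c : ℝ, c = (1 / u).im := ⟨_, rfl⟩
  rw [← hc'] at hc
  rw [← ha, ← hc']
  rw [ae_iff] at hp ⊢
  -- the inverse map
  have hd : DifferentiableOn ℝ (fun α : ℝ => Real.exp ((a - α) / (2 * c))) {α | ¬ p α} := by
    fun_prop
  have h1 := addHaar_image_eq_zero_of_differentiableOn_of_addHaar_eq_zero volume hd hp
  refine measure_mono_null ?_ h1
  intro γ hγ
  simp only [mem_setOf_eq, Classical.not_imp] at hγ
  obtain ⟨hγ0, hγ1⟩ := hγ
  refine ⟨a - 2 * Real.log γ * c, hγ1, ?_⟩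
  show Real.exp ((a - (a - 2 * Real.log γ * c)) / (2 * c)) = γ
  have h2 : (a - (a - 2 * Real.log γ * c)) / (2 * c) = Real.log γ := by
    field_simp
    ring
  rw [h2, Real.exp_log hγ0]

/-- THEOREM B' in terms of the real parameter `γ`: the spiral through `w / γ ^ 2`. -/
theorem density_gam {W : Set (ℂ → ℂ)} {C d0 Ce kap : ℝ} (F : Fam W C d0 Ce kap) {u : ℂ}
    (hu : u.re = 1) (hu' : u.im ≠ 0) (hbd : DeepBd W C d0) (hcpt : Cpt W) (hne : W.Nonempty)
    {X : ℝ} (hX : 0 ≤ X) (C5 : ℝ) :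
    ∃ q ∈ W, ∀ w : ℂ, w ≠ 0 → ∀ᵐ γ : ℝ, 0 < γ →
      (∀ z ∈ Hm, deriv q z = 0 → ∀ r : ℝ, q z ≠ w / γ ^ 2 * cexp (-2 * u * r)) ∧
      ∀ (P : ℂ) (r : ℝ), |P.re| ≤ X → 2 * d0 < -P.im → -P.im ≤ C5 → ‖q P‖ < kap →
        q P = w / γ ^ 2 * cexp (-2 * u * r) → Good q u P := by
  obtain ⟨q, hq, hae⟩ := density_ae F hu hbd hcpt hne hX C5
  refine ⟨q, hq, fun w hw => ?_⟩
  have hu0 : u ≠ 0 := by
    rintro rfl
    simp at hu
  filter_upwards [ae_gam (w := w) hu' hae] with γ hγ hγ0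
  obtain ⟨hg, hP⟩ := hγ hγ0
  have key : ∀ r : ℝ, w / (γ : ℂ) ^ 2 * cexp (-2 * u * r) =
      cexp (u * ((((log w / u).re - 2 * Real.log γ * (1 / u).re - 2 * r : ℝ) : ℂ) +
        (((log w / u).im - 2 * Real.log γ * (1 / u).im : ℝ) : ℂ) * I)) := by
    intro r
    have hγc : (γ : ℂ) ≠ 0 := by exact_mod_cast hγ0.ne'
    have h1 : w / (γ : ℂ) ^ 2 = cexp (log w - 2 * (Real.log γ : ℂ)) := by
      rw [Complex.exp_sub, exp_log hw]
      congr 1
      rw [two_mul, Complex.exp_add, ← Complex.ofReal_exp, Real.exp_log hγ0]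
      ring
    rw [h1, ← Complex.exp_add]
    congr 1
    have h2 : (((log w / u).re - 2 * Real.log γ * (1 / u).re - 2 * r : ℝ) : ℂ) +
        (((log w / u).im - 2 * Real.log γ * (1 / u).im : ℝ) : ℂ) * I =
        log w / u - 2 * (Real.log γ : ℂ) * (1 / u) - 2 * r := by
      have h3 : (((log w / u).re : ℝ) : ℂ) + (((log w / u).im : ℝ) : ℂ) * I = log w / u :=
        re_add_im _
      have h4 : (((1 / u).re : ℝ) : ℂ) + (((1 / u).im : ℝ) : ℂ) * I = 1 / u := re_add_im _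
      push_cast
      linear_combination h3 - 2 * (Real.log γ : ℂ) * h4
    rw [h2]
    field_simp
    ring
  refine ⟨fun z hz hz0 r heq => ?_, fun P r h1 h2 h3 h4 h5 => ?_⟩
  · exact hg z hz hz0 _ (heq.trans (key r))
  · exact hP P _ h1 h2 h3 h4 (h5.trans (key r))

end MP_ae5b4e_SD
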