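import Pool.Agent.Lib.MP_ae5b4e_an_SD.GMeas

/-! THEOREM B', module Trans: translation of the place.

`ereg_trans`: immediate (`deriv_comp_add_const`). `tr_trans`: `t ↦ tr q u (P + x) t - x` is a
trajectory of `z ↦ q (z + x)` through `P` (`tr_traj`), uniqueness (`TrajU.unique`). `int_trans`:
translation invariance of the volume of `ℂ` (`setLIntegral_comp_preimage_emb` for
`measurePreserving_add_right`); `vel`, `wt` at corresponding points agree,
`(tr q u (P+x) t - x).re - 0 = (tr q u (P+x) t).re - x`. -/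

open Complex Set Filter PorTR MeasureTheory Topology
open scoped ENNReal

namespace MP_ae5b4e_SD

private theorem Trans_deriv (q : ℂ → ℂ) (x z : ℂ) :
    deriv (fun z => q (z + x)) z = deriv q (z + x) := deriv_comp_add_const q x z

private theorem Trans_im (z : ℂ) (x : ℝ) : (z + (x : ℂ)).im = z.im := by
  rw [add_im, ofReal_im, add_zero]

theorem ereg_trans (q : ℂ → ℂ) (u : ℂ) (d0 kap x : ℝ) (P : ℂ) :
    P ∈ Ereg (fun z => q (z + (x : ℂ))) u d0 kap ↔ P + (x : ℂ) ∈ Ereg q u d0 kap := by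
  constructor
  · rintro ⟨h1, h2, h3, h4⟩
    refine ⟨by rw [Trans_im]; exact h1, h2, h3, fun z hz hz0 r => ?_⟩
    have hz' : z - (x : ℂ) ∈ Hm := by
      change (z - (x : ℂ)).im < 0
      rw [sub_im, ofReal_im, sub_zero]
      exact hz
    have h5 := h4 (z - (x : ℂ)) hz' (by rw [Trans_deriv, sub_add_cancel]; exact hz0) r
    change q (z - (x : ℂ) + (x : ℂ)) ≠ q (P + (x : ℂ)) * cexp (u * r) at h5
    rw [sub_add_cancel] at h5
    exact h5
  · rintro ⟨h1, h2, h3, h4⟩
    refine ⟨by rw [Trans_im] at h1; exact h1, h2, h3, fun z hz hz0 r => ?_⟩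
    rw [Trans_deriv] at hz0
    refine h4 (z + (x : ℂ)) ?_ hz0 r
    change (z + (x : ℂ)).im < 0
    rw [Trans_im]
    exact hz

theorem tr_trans {W : Set (ℂ → ℂ)} {C d0 Ce kap : ℝ} (F : Fam W C d0 Ce kap) {u : ℂ}
    (hu : u.re = 1)
    {q : ℂ → ℂ} (hq : q ∈ W) (x : ℝ) {P : ℂ} (hP : P + (x : ℂ) ∈ Ereg q u d0 kap) {t : ℝ}
    (ht : 0 ≤ t) :
    tr (fun z => q (z + (x : ℂ))) u P t = tr q u (P + (x : ℂ)) t - (x : ℂ) := by
  have hq' := F.trans q hq x
  have h1 := tr_traj F hu hq' ((ereg_trans q u d0 kap x P).2 hP)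
  have h2 := tr_traj F hu hq hP
  refine TrajU.unique (F.hol _ hq') h1 (l' := fun t => tr q u (P + (x : ℂ)) t - (x : ℂ)) ?_ t ht
  refine ⟨?_, ?_, fun s hs => ?_, fun s hs => ?_, fun s hs => ?_⟩
  · rw [h2.start, add_sub_cancel_right]
  · exact h2.cont.sub continuousOn_const
  · change (tr q u (P + (x : ℂ)) s - (x : ℂ)).im < 0
    rw [sub_im, ofReal_im, sub_zero]
    exact h2.low s hs
  · rw [sub_add_cancel]
    exact h2.val s hs
  · rw [Trans_deriv, sub_add_cancel]
    exact h2.reg s hs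

theorem int_trans {W : Set (ℂ → ℂ)} {C d0 Ce kap : ℝ} (F : Fam W C d0 Ce kap) {u : ℂ}
    (hu : u.re = 1)
    {q : ℂ → ℂ} (hq : q ∈ W) (X C5 R x : ℝ) :
    ∫⁻ P in Ereg (fun z => q (z + (x : ℂ))) u d0 kap ∩ bx X C5 0,
        ∫⁻ t in Ioi (0 : ℝ), enR (fun z => q (z + (x : ℂ))) u R 0 P t
      = ∫⁻ P in Ereg q u d0 kap ∩ bx X C5 x, ∫⁻ t in Ioi (0 : ℝ), enR q u R x P t := by
  have hq' := F.trans q hq x
  have hset : Ereg (fun z => q (z + (x : ℂ))) u d0 kap ∩ bx X C5 0 =
      (fun P : ℂ => P + (x : ℂ)) ⁻¹' (Ereg q u d0 kap ∩ bx X C5 x) := by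
    ext P
    constructor
    · rintro ⟨h1, h2, h3⟩
      refine ⟨(ereg_trans q u d0 kap x P).1 h1, ?_, ?_⟩
      · change |(P + (x : ℂ)).re - x| < X
        rw [add_re, ofReal_re, add_sub_cancel_right]
        rw [sub_zero] at h2
        exact h2
      · change -(P + (x : ℂ)).im < C5
        rw [Trans_im]
        exact h3
    · rintro ⟨h1, h2, h3⟩
      refine ⟨(ereg_trans q u d0 kap x P).2 h1, ?_, ?_⟩
      · change |(P + (x : ℂ)).re - x| < X at h2
        rw [add_re, ofReal_re, add_sub_cancel_right] at h2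
        rw [sub_zero]
        exact h2
      · change -(P + (x : ℂ)).im < C5 at h3
        rw [Trans_im] at h3
        exact h3
  have hbx : IsOpen (bx X C5 0) := by
    have e : bx X C5 0 = {P : ℂ | |P.re - 0| < X} ∩ {P : ℂ | -P.im < C5} := rfl
    rw [e]
    refine IsOpen.inter (isOpen_lt ?_ continuous_const) (isOpen_lt ?_ continuous_const)
    · exact (continuous_re.sub continuous_const).abs
    · exact continuous_im.neg
  have hmeas : MeasurableSet (Ereg (fun z => q (z + (x : ℂ))) u d0 kap ∩ bx X C5 0) :=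
    (ereg_meas F hu hq').inter hbx.measurableSet
  have hcongr : ∀ P ∈ Ereg (fun z => q (z + (x : ℂ))) u d0 kap ∩ bx X C5 0,
      ∫⁻ t in Ioi (0 : ℝ), enR (fun z => q (z + (x : ℂ))) u R 0 P t =
        ∫⁻ t in Ioi (0 : ℝ), enR q u R x (P + (x : ℂ)) t := by
    intro P hP
    have hP' := (ereg_trans q u d0 kap x P).1 hP.1
    refine setLIntegral_congr_fun measurableSet_Ioi fun t ht => ?_
    have h1 := tr_trans F hu hq x hP' (le_of_lt ht)
    have h2 : (tr (fun z => q (z + (x : ℂ))) u P t).re - 0 = (tr q u (P + (x : ℂ)) t).re - x := by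
      rw [h1, sub_re, ofReal_re, sub_zero]
    have h3 : en (fun z => q (z + (x : ℂ))) u P t = en q u (P + (x : ℂ)) t := by
      unfold en vel wt
      rw [h1, Trans_deriv, Trans_deriv]
      beta_reduce
      rw [sub_add_cancel]
    change enR (fun z => q (z + (x : ℂ))) u R 0 P t = enR q u R x (P + (x : ℂ)) t
    unfold enR
    rw [Set.indicator_apply, Set.indicator_apply]
    have h4 : (t ∈ {t | |(tr (fun z => q (z + (x : ℂ))) u P t).re - 0| ≤ R}) ↔
        t ∈ {t | |(tr q u (P + (x : ℂ)) t).re - x| ≤ R} := by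
      change |(tr (fun z => q (z + (x : ℂ))) u P t).re - 0| ≤ R ↔
        |(tr q u (P + (x : ℂ)) t).re - x| ≤ R
      rw [h2]
    by_cases h5 : t ∈ {t | |(tr q u (P + (x : ℂ)) t).re - x| ≤ R}
    · rw [if_pos h5, if_pos (h4.2 h5), h3]
    · rw [if_neg h5, if_neg fun h => h5 (h4.1 h)]
  rw [setLIntegral_congr_fun hmeas hcongr, hset]
  exact (measurePreserving_add_right volume (x : ℂ)).setLIntegral_comp_preimage_emb
    (MeasurableEquiv.addRight (x : ℂ)).measurableEmbedding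
    (fun P => ∫⁻ t in Ioi (0 : ℝ), enR q u R x P t) (Ereg q u d0 kap ∩ bx X C5 x)

end MP_ae5b4e_SD
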