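import Pool.Agent.Lib.MP_ae5b4e_an_SD.Tube2
import Pool.Agent.Lib.MP_ae5b4e_an_SD.Trans

/-! THEOREM B', module Pick: a place with small cut-off energy.

`pick`. PROOF. Take any `q0 ∈ W`, `R = J (2X+3)`. By `tube_sum` the sum of `J ≥ 1` terms is at most
`J` times the bound, so some term is at most the bound. `q = q0 (· + x_j) ∈ W` and `int_trans`. -/

open Complex Set Filter PorTR MeasureTheory Topology
open scoped ENNReal

namespace MP_ae5b4e_SD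

theorem pick {W : Set (ℂ → ℂ)} {C d0 Ce kap : ℝ} (F : Fam W C d0 Ce kap) {u : ℂ}
    (hu : u.re = 1)
    (hbd : DeepBd W C d0) (hne : W.Nonempty) {X C5 : ℝ} (hX : 0 ≤ X) (J : ℕ) (hJ : 1 ≤ J) :
    ∃ q ∈ W, ∫⁻ P in Ereg q u d0 kap ∩ bx X C5 0,
        ∫⁻ t in Ioi (0 : ℝ), enR q u ((J : ℝ) * (2 * X + 3)) 0 P t
      ≤ ENNReal.ofReal (1560 * ‖u‖ ^ 2 * (2 * X + 3) * Real.sqrt (C * kap)) := by
  obtain ⟨q0, hq0⟩ := hne
  have hs := tube_sum F hu hbd hq0 (C5 := C5) hX J (le_refl ((J : ℝ) * (2 * X + 3)))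
  have hJ0 : (Finset.range J).Nonempty := Finset.nonempty_range_iff.mpr (by omega)
  have hc : ENNReal.ofReal (1560 * ‖u‖ ^ 2 * ((J : ℝ) * (2 * X + 3)) * Real.sqrt (C * kap)) =
      ∑ _j ∈ Finset.range J,
        ENNReal.ofReal (1560 * ‖u‖ ^ 2 * (2 * X + 3) * Real.sqrt (C * kap)) := by
    rw [Finset.sum_const, Finset.card_range, nsmul_eq_mul, ← ENNReal.ofReal_natCast,
      ← ENNReal.ofReal_mul (by positivity)]
    congr 1
    ring
  rw [hc] at hs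
  obtain ⟨j, _, hj⟩ := ENNReal.exists_le_of_sum_le hJ0 hs
  refine ⟨fun z => q0 (z + (((j : ℝ) * (2 * X + 3) : ℝ) : ℂ)), F.trans q0 hq0 _, ?_⟩
  rw [int_trans F hu hq0 X C5 ((J : ℝ) * (2 * X + 3)) ((j : ℝ) * (2 * X + 3))]
  exact hj

end MP_ae5b4e_SD
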