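import Pool.Agent.Lib.MP_ae5b4e_an_SD.Equi

/-! THEOREM B', module Stab: continuous dependence of the trajectory on the function and the point.

`stab`. PROOF. `f n (P n) → q P0 ≠ 0` (locally uniform convergence at the convergent points `P n`,
which stay in a compact subset of `Hm`; `P0` has depth `≥ 2 d0`). So there are `m > 0`, `n0` with
`m ≤ ‖f n (P n)‖` for `n ≥ n0`; let `T ≥ t n` for all `n` and `T ≥ t0`. `bdd` and `TrajU.deep`: for
`n ≥ n0`, `u ∈ [0, T]`, `l n u` is in a compact subset `K` of `Hm` (`dist (l n u) (P n) ≤ R`, `P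
n` bounded, depth in `[d0, R]`). Let `U ≤ atTop` be an ultrafilter (`tendsto_iff_ultrafilter`).
For `u ∈ [0, T]` let `m u` be the limit of `l n u` along `U` (`IsCompact.ultrafilter_le_nhds`).
Then `m 0 = P0`; `m` is continuous on `[0, T]` (`equi`: for `δ > 0` there is `η` with `dist (m s)
(m s') ≤ δ` for `|s - s'| ≤ η`); `m u ∈ K ⊆ Hm`; and `q (m u) = lim f n (l n u) = lim f n (P n)
e^{-2u} = q P0 e^{-2u}` (locally uniform convergence). `l0` is another such path, through regular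
points: `eq_of_meet` (at `s = 0`) gives `m = l0` on `[0, T]`. So `l n u → l0 u` along `U` for
every `u ∈ [0, T]`; with `u = t0` and `equi` (`dist (l n (t n)) (l n t0) < δ` when `|t n - t0| ≤
η`): `l n (t n) → l0 t0` along `U`. -/

open Complex Set Filter PorTR MeasureTheory Topology
open scoped ENNReal

namespace MP_ae5b4e_SD

private theorem Stab_comp {f : ℕ → ℂ → ℂ} {q : ℂ → ℂ} (hqd : DifferentiableOn ℂ q Hm)
    (hlim : TendstoLocallyUniformlyOn f q atTop Hm) {U : Filter ℕ} (hU : U ≤ atTop)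
    {x : ℕ → ℂ} {y : ℂ} (hy : y ∈ Hm) (hx : ∀ᶠ n in U, x n ∈ Hm) (h : Tendsto x U (𝓝 y)) :
    Tendsto (fun n => f n (x n)) U (𝓝 (q y)) := by
  have h1 : TendstoLocallyUniformlyOn f q U Hm := by
    intro u hu z hz
    obtain ⟨t, ht, h2⟩ := hlim u hu z hz
    exact ⟨t, ht, hU h2⟩
  exact h1.tendsto_comp (hqd.continuousOn y hy) hy (tendsto_nhdsWithin_iff.2 ⟨h, hx⟩)

theorem stab {W : Set (ℂ → ℂ)} {C d0 Ce kap : ℝ} (F : Fam W C d0 Ce kap) {u : ℂ}
    (hu : u.re = 1) (hbd : DeepBd W C d0)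
    {f : ℕ → ℂ → ℂ} (hf : ∀ n, f n ∈ W) {q : ℂ → ℂ} (hq : q ∈ W)
    (hlim : TendstoLocallyUniformlyOn f q atTop Hm) {P : ℕ → ℂ} {P0 : ℂ}
    (hP : Tendsto P atTop (𝓝 P0)) (hPd : ∀ n, 2 * d0 ≤ -(P n).im)
    (hk : ∀ n, ‖f n (P n)‖ < kap) (hq0 : q P0 ≠ 0)
    {l : ℕ → ℝ → ℂ} (hl : ∀ n, TrajU (f n) u (P n) (l n)) {l0 : ℝ → ℂ} (hl0 : TrajU q u P0 l0)
    {t : ℕ → ℝ} {t0 : ℝ} (ht : ∀ n, 0 ≤ t n) (htt : Tendsto t atTop (𝓝 t0)) :
    Tendsto (fun n => l n (t n)) atTop (𝓝 (l0 t0)) := by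
  have hd0 := F.d0_pos
  have hqd := F.hol q hq
  have hP0 : P0 ∈ Hm := by
    rw [← hl0.start]
    exact hl0.low 0 le_rfl
  have hPH : ∀ n, P n ∈ Hm := by
    intro n
    have h1 := hPd n
    show (P n).im < 0
    linarith
  have hfP : Tendsto (fun n => f n (P n)) atTop (𝓝 (q P0)) :=
    Stab_comp hqd hlim le_rfl hP0 (Eventually.of_forall hPH) hP
  have hm : 0 < ‖q P0‖ / 2 := by positivity
  have hev1 : ∀ᶠ n in atTop, ‖q P0‖ / 2 ≤ ‖f n (P n)‖ := by
    have h1 := hfP.norm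
    have h2 : ‖q P0‖ / 2 < ‖q P0‖ := by linarith
    filter_upwards [h1.eventually (lt_mem_nhds h2)] with n hn
    exact hn.le
  have ht0 : 0 ≤ t0 := ge_of_tendsto' htt ht
  obtain ⟨T0, hT0⟩ := htt.bddAbove_range
  set T : ℝ := max T0 t0 with hTdef
  have hT : 0 ≤ T := ht0.trans (le_max_right _ _)
  have htT : ∀ n, t n ∈ Icc 0 T := fun n =>
    ⟨ht n, (hT0 ⟨n, rfl⟩).trans (le_max_left _ _)⟩
  have ht0T : t0 ∈ Icc 0 T := ⟨ht0, le_max_right _ _⟩
  have h0T : (0 : ℝ) ∈ Icc 0 T := ⟨le_rfl, hT⟩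
  obtain ⟨R, hR, hRb⟩ := bdd F hu hbd hm hT
  set K : Set ℂ := Metric.closedBall P0 (R + 1) ∩ {z | d0 ≤ -z.im} with hK
  have hKc : IsCompact K := (isCompact_closedBall _ _).inter_right
    (isClosed_le continuous_const (Complex.continuous_im.neg))
  have hKH : K ⊆ Hm := by
    rintro z ⟨-, hz⟩
    have h1 : d0 ≤ -z.im := hz
    show z.im < 0
    linarith
  have hev2 : ∀ᶠ n in atTop, ∀ s ∈ Icc 0 T, l n s ∈ K := by
    filter_upwards [hev1, hP.eventually (Metric.closedBall_mem_nhds P0 one_pos)] with n h1 h2 s hs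
    refine ⟨?_, ?_⟩
    · rw [Metric.mem_closedBall]
      have h2' : dist (P n) P0 ≤ 1 := h2
      have h3 := (hRb (f n) (hf n) (P n) (l n) (hl n) (hPd n) h1 (hk n) s hs).1
      have h4 := dist_triangle (l n s) (P n) P0
      linarith
    · exact (TrajU.deep F (hf n) hu (hPd n) (hk n) (hl n) s hs.1).le
  have hequi : ∀ δ : ℝ, 0 < δ → ∃ η : ℝ, 0 < η ∧ ∀ᶠ n in atTop, ∀ s ∈ Icc 0 T, ∀ s' ∈ Icc 0 T,
      |s - s'| ≤ η → dist (l n s) (l n s') < δ := by
    intro δ hδ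
    obtain ⟨η, hη, h1⟩ := equi F hu hbd hm hT hδ
    refine ⟨η, hη, ?_⟩
    filter_upwards [hev1] with n hn s hs s' hs' hss
    exact h1 (f n) (hf n) (P n) (l n) (hl n) (hPd n) hn (hk n) s hs s' hs' hss
  rw [tendsto_iff_ultrafilter]
  intro U hU
  have hlimit : ∀ s ∈ Icc 0 T, ∃ y ∈ K, Tendsto (fun n => l n s) U (𝓝 y) := by
    intro s hs
    have h1 : ∀ᶠ n in (U : Filter ℕ), l n s ∈ K := hU (hev2.mono fun n hn => hn s hs)
    exact hKc.ultrafilter_le_nhds (U.map fun n => l n s) (by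
      rw [le_principal_iff]
      exact h1)
  choose! mm hmK hmt using hlimit
  have hm0 : mm 0 = P0 := by
    have h1 : Tendsto (fun n => l n 0) U (𝓝 P0) := by
      have h2 : (fun n => l n 0) = P := funext fun n => (hl n).start
      rw [h2]
      exact hP.mono_left hU
    exact tendsto_nhds_unique (hmt 0 h0T) h1
  have hmc : ContinuousOn mm (Icc 0 T) := by
    rw [Metric.continuousOn_iff]
    intro s hs ε hε
    obtain ⟨η, hη, h1⟩ := hequi (ε / 2) (by positivity)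
    refine ⟨η, hη, fun s' hs' hss => ?_⟩
    have h2 : ∀ᶠ n in (U : Filter ℕ), dist (l n s') (l n s) ≤ ε / 2 := by
      refine hU (h1.mono fun n hn => ?_)
      refine (hn s' hs' s hs ?_).le
      rw [Real.dist_eq] at hss
      exact hss.le
    have h3 := le_of_tendsto ((hmt s' hs').dist (hmt s hs)) h2
    linarith
  have hmv : ∀ s ∈ Icc 0 T, q (l0 s) = q (mm s) := by
    intro s hs
    have h1 : Tendsto (fun n => f n (l n s)) U (𝓝 (q (mm s))) := by
      refine Stab_comp hqd hlim hU (hKH (hmK s hs)) ?_ (hmt s hs)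
      exact hU (hev2.mono fun n hn => hKH (hn s hs))
    have h2 : Tendsto (fun n => f n (l n s)) U (𝓝 (q P0 * cexp (-2 * u * s))) := by
      have h3 : (fun n => f n (l n s)) = fun n => f n (P n) * cexp (-2 * u * s) :=
        funext fun n => (hl n).val s hs.1
      rw [h3]
      exact (hfP.mono_left hU).mul_const _
    rw [hl0.val s hs.1]
    exact tendsto_nhds_unique h2 h1
  have hfin := eq_of_meet hqd (a := 0) (b := T) (s := 0) (l := l0) (l' := mm) h0T
    (hl0.cont.mono fun x hx => hx.1) hmc (fun x hx => hl0.low x hx.1)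
    (fun x hx => hl0.reg x hx.1) hmv (by rw [hl0.start, hm0])
  rw [Metric.tendsto_nhds]
  intro ε hε
  obtain ⟨η, hη, h1⟩ := hequi (ε / 2) (by positivity)
  have h2 : ∀ᶠ n in (U : Filter ℕ), dist (l n t0) (l0 t0) < ε / 2 := by
    have h3 := hmt t0 ht0T
    rw [← hfin t0 ht0T] at h3
    exact h3.eventually (Metric.ball_mem_nhds _ (by positivity))
  have h4 : ∀ᶠ n in atTop, |t n - t0| ≤ η := by
    filter_upwards [htt.eventually (Metric.closedBall_mem_nhds t0 hη)] with n hn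
    rw [← Real.dist_eq]
    exact hn
  filter_upwards [h2, hU h1, hU h4] with n hn1 hn2 hn3
  have h5 := hn2 (t n) (htT n) t0 ht0T hn3
  have h6 := dist_triangle (l n (t n)) (l n t0) (l0 t0)
  linarith

end MP_ae5b4e_SD
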